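import Mathlib

/-! T15: from a good integer set of `M` points to `N ≤ M` points in `[0,1)^k`. -/

namespace DiscTower

open Finset

/-- product comparison -/
theorem genN_prod_close {K : ℕ} (a b : Fin K → ℝ) (δ : ℝ) (ha : ∀ s, 0 ≤ a s ∧ a s ≤ 1)
    (hb : ∀ s, 0 ≤ b s ∧ b s ≤ 1) (hab : ∀ s, |b s - a s| ≤ δ) :
    |∏ s, b s - ∏ s, a s| ≤ K * δ := by
  induction K with
  | zero => simp
  | succ K ih =>
    rw [Fin.prod_univ_succ, Fin.prod_univ_succ]
    have h1 := ih (fun s => a s.succ) (fun s => b s.succ) (fun s => ha _) (fun s => hb _)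
      (fun s => hab _)
    have h2 : |∏ s : Fin K, b s.succ| ≤ 1 := by
      rw [abs_of_nonneg (prod_nonneg fun s _ => (hb _).1)]
      exact prod_le_one (fun s _ => (hb _).1) (fun s _ => (hb _).2)
    have h3 : b 0 * ∏ s : Fin K, b s.succ - a 0 * ∏ s : Fin K, a s.succ =
        (b 0 - a 0) * ∏ s : Fin K, b s.succ +
          a 0 * (∏ s : Fin K, b s.succ - ∏ s : Fin K, a s.succ) := by ring
    rw [h3]
    have hδ : 0 ≤ δ := le_trans (abs_nonneg _) (hab 0)
    calc _ ≤ |(b 0 - a 0) * ∏ s : Fin K, b s.succ| +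
          |a 0 * (∏ s : Fin K, b s.succ - ∏ s : Fin K, a s.succ)| := abs_add_le _ _
      _ ≤ δ * 1 + 1 * (K * δ) := by
          rw [abs_mul, abs_mul]
          apply add_le_add
          · exact mul_le_mul (hab 0) h2 (abs_nonneg _) hδ
          · apply mul_le_mul _ h1 (abs_nonneg _) zero_le_one
            rw [abs_of_nonneg (ha 0).1]; exact (ha 0).2
      _ = ((K + 1 : ℕ) : ℝ) * δ := by push_cast; ring

theorem genN_transfer {K N M : ℕ} (hN : 0 < N) (hNM : N ≤ M) {ι : Type} [Fintype ι]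
    (hι : Fintype.card ι = M) (X : ι → Fin (K + 1) → ℕ) (hX : ∀ i s, X i s < M)
    (h0 : Function.Injective (fun i => X i 0)) (E : ℝ)
    (hE : ∀ B : Fin (K + 1) → ℕ, (∀ s, B s ≤ M) →
      |((univ.filter (fun i => ∀ s, X i s < B s)).card : ℝ) - M * ∏ s, ((B s : ℝ) / M)| ≤ E) :
    ∃ u : Fin N → Fin (K + 1) → ℝ, (∀ i j, 0 ≤ u i j ∧ u i j < 1) ∧
      ∀ α : Fin (K + 1) → ℝ, (∀ j, 0 ≤ α j ∧ α j < 1) →
        |((univ.filter (fun i : Fin N => ∀ j, u i j ≤ α j)).card : ℝ) - N * ∏ j, α j| ≤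
          E + (K + 1) := by
  classical
  have hM : 0 < M := lt_of_lt_of_le hN hNM
  have hMr : (0 : ℝ) < M := by exact_mod_cast hM
  have hNr : (0 : ℝ) < N := by exact_mod_cast hN
  -- the first coordinate is a bijection onto `range M`
  have hbij : Function.Bijective (fun i : ι => (⟨X i 0, hX i 0⟩ : Fin M)) := by
    rw [Fintype.bijective_iff_injective_and_card]
    refine ⟨fun i j h => h0 ?_, by simp [hι]⟩
    simpa [Fin.ext_iff] using h
  obtain ⟨e, he⟩ : ∃ e : Fin N → ι, ∀ m : Fin N, X (e m) 0 = m := by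
    have := fun m : Fin N => hbij.2 ⟨m, lt_of_lt_of_le m.2 hNM⟩
    choose e he using this
    exact ⟨e, fun m => by simpa [Fin.ext_iff] using he m⟩
  have heinj : Function.Injective e := by
    intro a b h
    have := he a
    rw [h, he b] at this
    exact Fin.ext this.symm
  have hesurj : ∀ i, X i 0 < N → ∃ m, e m = i := fun i hi => by
    refine ⟨⟨X i 0, hi⟩, h0 ?_⟩
    simpa using he ⟨X i 0, hi⟩
  let D : Fin (K + 1) → ℝ := Fin.cons (N : ℝ) (fun _ => (M : ℝ))
  have hDpos : ∀ j, 0 < D j := by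
    intro j
    refine Fin.cases ?_ (fun j => ?_) j
    · simpa [D] using hNr
    · simpa [D] using hMr
  have hXD : ∀ m : Fin N, ∀ j, (X (e m) j : ℝ) < D j := by
    intro m j
    refine Fin.cases ?_ (fun j => ?_) j
    · simp only [D, Fin.cons_zero, he]; exact_mod_cast m.2
    · simp only [D, Fin.cons_succ]; exact_mod_cast hX _ _
  refine ⟨fun m j => (X (e m) j : ℝ) / D j, fun m j => ⟨by have := hDpos j; positivity,
    by rw [div_lt_one (hDpos j)]; exact hXD m j⟩, ?_⟩
  intro α hα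
  set B : Fin (K + 1) → ℕ := fun j => ⌊α j * D j⌋₊ + 1 with hB
  have hfl : ∀ j, (⌊α j * D j⌋₊ : ℝ) ≤ α j * D j ∧ α j * D j < ⌊α j * D j⌋₊ + 1 := fun j =>
    ⟨Nat.floor_le (mul_nonneg (hα j).1 (hDpos j).le), Nat.lt_floor_add_one _⟩
  have hlt : ∀ j, α j * D j < D j := fun j => by
    have := mul_lt_mul_of_pos_right (hα j).2 (hDpos j)
    simpa using this
  have hBN : B 0 ≤ N := by
    have h := lt_of_le_of_lt (hfl 0).1 (hlt 0)
    have : (⌊α 0 * D 0⌋₊ : ℝ) < N := by simpa [D] using h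
    have : ⌊α 0 * D 0⌋₊ < N := by exact_mod_cast this
    exact this
  have hBM : ∀ j, B j ≤ M := by
    intro j
    refine Fin.cases (hBN.trans hNM) (fun j => ?_) j
    have h := lt_of_le_of_lt (hfl j.succ).1 (hlt j.succ)
    have : (⌊α j.succ * D j.succ⌋₊ : ℝ) < M := by simpa [D] using h
    have : ⌊α j.succ * D j.succ⌋₊ < M := by exact_mod_cast this
    exact this
  have hcard : (univ.filter (fun m : Fin N => ∀ j, (X (e m) j : ℝ) / D j ≤ α j)).card =
      (univ.filter (fun i : ι => ∀ s, X i s < B s)).card := by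
    have hiff : ∀ m : Fin N, (∀ j, (X (e m) j : ℝ) / D j ≤ α j) ↔ ∀ s, X (e m) s < B s := by
      intro m
      apply forall_congr'
      intro j
      rw [div_le_iff₀ (hDpos j), hB]
      constructor
      · intro h
        exact Nat.lt_succ_of_le (Nat.le_floor h)
      · intro h
        have : X (e m) j ≤ ⌊α j * D j⌋₊ := Nat.lt_succ_iff.mp h
        have : (X (e m) j : ℝ) ≤ ⌊α j * D j⌋₊ := by exact_mod_cast this
        exact this.trans (hfl j).1
    simp only [hiff]
    apply card_bij (fun m _ => e m)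
    · intro m hm; simpa using hm
    · intro a _ b _ h; exact heinj h
    · intro i hi
      have hi' : ∀ s, X i s < B s := by simpa using hi
      obtain ⟨m, hm⟩ := hesurj i (lt_of_lt_of_le (hi' 0) hBN)
      exact ⟨m, by simpa [hm] using hi', hm⟩
  rw [hcard]
  have h1 := hE B hBM
  have h2 : |(M : ℝ) * ∏ s, ((B s : ℝ) / M) - N * ∏ j, α j| ≤ K + 1 := by
    rw [Fin.prod_univ_succ, Fin.prod_univ_succ]
    have e1 : (M : ℝ) * ((B 0 : ℝ) / M * ∏ s : Fin K, ((B s.succ : ℝ) / M)) =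
        B 0 * ∏ s : Fin K, ((B s.succ : ℝ) / M) := by
      field_simp
    rw [e1]
    have hb : ∀ s : Fin K, 0 ≤ (B s.succ : ℝ) / M ∧ (B s.succ : ℝ) / M ≤ 1 := fun s =>
      ⟨by positivity, by rw [div_le_one hMr]; exact_mod_cast hBM _⟩
    have h3 : |∏ s : Fin K, ((B s.succ : ℝ) / M) - ∏ s : Fin K, α s.succ| ≤ K * (1 / M) := by
      apply genN_prod_close _ _ _ (fun s => ⟨(hα _).1, (hα _).2.le⟩) hb
      intro s
      have h := hfl s.succ
      simp only [D, Fin.cons_succ] at h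
      have hBs : (B s.succ : ℝ) = ⌊α s.succ * M⌋₊ + 1 := by simp [hB, D]
      rw [abs_le]
      rw [hBs]
      constructor
      · rw [neg_le_sub_iff_le_add, ← sub_nonneg]
        have : ((⌊α s.succ * M⌋₊ : ℝ) + 1) / M + 1 / M - α s.succ =
          (((⌊α s.succ * M⌋₊ : ℝ) + 1) + 1 - α s.succ * M) / M := by field_simp
        rw [this]
        apply div_nonneg _ hMr.le
        linarith
      · rw [sub_le_iff_le_add, ← sub_nonneg]
        have : 1 / M + α s.succ - ((⌊α s.succ * M⌋₊ : ℝ) + 1) / M =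
          (1 + α s.succ * M - ((⌊α s.succ * M⌋₊ : ℝ) + 1)) / M := by field_simp
        rw [this]
        apply div_nonneg _ hMr.le
        linarith
    have h4 : |∏ s : Fin K, ((B s.succ : ℝ) / M)| ≤ 1 := by
      rw [abs_of_nonneg (prod_nonneg fun s _ => (hb _).1)]
      exact prod_le_one (fun s _ => (hb _).1) (fun s _ => (hb _).2)
    have hB0 : |(B 0 : ℝ) - N * α 0| ≤ 1 := by
      have h := hfl 0
      simp only [D, Fin.cons_zero] at h
      have hBs : (B 0 : ℝ) = ⌊α 0 * N⌋₊ + 1 := by simp [hB, D]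
      rw [hBs, abs_le]
      constructor <;> linarith
    have e2 : (B 0 : ℝ) * ∏ s : Fin K, ((B s.succ : ℝ) / M) - N * (α 0 * ∏ s : Fin K, α s.succ) =
        (B 0 - N * α 0) * ∏ s : Fin K, ((B s.succ : ℝ) / M) +
          N * α 0 * (∏ s : Fin K, ((B s.succ : ℝ) / M) - ∏ s : Fin K, α s.succ) := by ring
    rw [e2]
    have h5 : |(N : ℝ) * α 0| ≤ N := by
      rw [abs_of_nonneg (mul_nonneg hNr.le (hα 0).1)]
      have := mul_le_mul_of_nonneg_left (hα 0).2.le hNr.le
      simpa using this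
    calc _ ≤ |(B 0 - N * α 0) * ∏ s : Fin K, ((B s.succ : ℝ) / M)| +
          |N * α 0 * (∏ s : Fin K, ((B s.succ : ℝ) / M) - ∏ s : Fin K, α s.succ)| :=
            abs_add_le _ _
      _ ≤ 1 * 1 + N * (K * (1 / M)) := by
          rw [abs_mul, abs_mul]
          apply add_le_add
          · exact mul_le_mul hB0 h4 (abs_nonneg _) zero_le_one
          · exact mul_le_mul h5 h3 (abs_nonneg _) hNr.le
      _ ≤ K + 1 := by
          have h6 : (N : ℝ) * (K * (1 / M)) = (N / M) * K := by field_simp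
          have h7 : (N : ℝ) / M ≤ 1 := by rw [div_le_one hMr]; exact_mod_cast hNM
          have h8 : (N : ℝ) / M * K ≤ 1 * K := mul_le_mul_of_nonneg_right h7 (by positivity)
          rw [h6]; linarith
  have h3 : ((univ.filter (fun i : ι => ∀ s, X i s < B s)).card : ℝ) - N * ∏ j, α j =
      (((univ.filter (fun i : ι => ∀ s, X i s < B s)).card : ℝ) - M * ∏ s, ((B s : ℝ) / M)) +
        (M * ∏ s, ((B s : ℝ) / M) - N * ∏ j, α j) := by ring
  rw [h3]
  exact (abs_add_le _ _).trans (add_le_add h1 h2)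



theorem gen_N (K M N : ℕ) (hN : 1 ≤ N) (hNM : N ≤ M) (I : Type) [Fintype I]
    (x : I → Fin (K + 1) → ℕ) (hx : ∀ i s, x i s < M) (h0 : ∀ y < M, ∃! i, x i 0 = y) (E : ℝ)
    (hE : ∀ a : Fin (K + 1) → ℕ, (∀ s, a s ≤ M) →
        |((univ.filter (fun i : I => ∀ s, x i s < a s)).card : ℝ) -
          (M : ℝ) * ∏ s, ((a s : ℝ) / (M : ℝ))| ≤ E) :
    ∃ u : Fin N → Fin (K + 1) → ℝ, (∀ i s, 0 ≤ u i s ∧ u i s < 1) ∧
      ∀ α : Fin (K + 1) → ℝ, (∀ s, 0 ≤ α s ∧ α s < 1) →
        |((univ.filter (fun i : Fin N => ∀ s, u i s ≤ α s)).card : ℝ) - N * ∏ s, α s| ≤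
          E + (K + 1) := by
  have hinj : Function.Injective (fun i : I => x i 0) := by
    intro i j hij
    exact (h0 (x i 0) (hx i 0)).unique rfl hij.symm
  have hcard : Fintype.card I = M := by
    have hb : Function.Bijective (fun i : I => (⟨x i 0, hx i 0⟩ : Fin M)) := by
      constructor
      · intro i j h
        exact hinj (by simpa [Fin.ext_iff] using h)
      · intro m
        obtain ⟨i, hi, _⟩ := h0 m m.2
        exact ⟨i, Fin.ext hi⟩
    have := Fintype.card_of_bijective hb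
    simpa using this
  exact genN_transfer (by omega) hNM hcard x hx hinj E hE

end DiscTower
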