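import Mathlib

/-!
# Towers of nets: definitions (MP_d500f7_co, upper bound in every dimension)

A *corner* over the digit alphabet `{0,…,q-1}` is a list `b` of digits together with an end
value `e`: its indicator `val b e x` is `1` when the digit string `x` is lexicographically below
`b`, `0` when above, and `e` when the first digits of `x` are exactly `b`.
-/

namespace DiscTower
open Finset

/-- value (0 or 1) of the corner `(b,e)` at the digit string `x` -/
noncomputable def val : List ℕ → Bool → (ℕ → ℕ) → ℝ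
  | [], e, _ => if e then 1 else 0
  | b :: r, e, x => if x 0 < b then 1 else if x 0 = b then val r e (fun t => x (t + 1)) else 0

/-- volume of the corner `(b,e)` over the alphabet `{0,…,q-1}` -/
noncomputable def vol (q : ℕ) : List ℕ → Bool → ℝ
  | [], e => if e then 1 else 0
  | b :: r, e => (b + vol q r e) / q

/-- digits of the fibre corner over the low digit string `l` -/
def fibL (p : ℕ) : List ℕ → (ℕ → ZMod p) → List ℕ
  | [], _ => []
  | b :: r, l => if l 0 = (b : ZMod p) then (b / p) :: fibL p r (fun t => l (t + 1)) else [b / p]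

/-- end value of the fibre corner over the low digit string `l` -/
def fibE (p : ℕ) : List ℕ → Bool → (ℕ → ZMod p) → Bool
  | [], e, _ => e
  | b :: r, e, l => if l 0 = (b : ZMod p) then fibE p r e (fun t => l (t + 1))
      else decide ((l 0).val < b % p)

/-- volume of the fibre corner -/
noncomputable def mu (q p : ℕ) (b : List ℕ) (e : Bool) (l : ℕ → ZMod p) : ℝ :=
  vol q (fibL p b l) (fibE p b e l)

/-- combine high digits and low digits -/
def cmb (p : ℕ) (h : ℕ → ℕ) (l : ℕ → ZMod p) : ℕ → ℕ := fun t => h t * p + (l t).val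

/-- extend a finite digit string by zero -/
def ext {p : ℕ} {d : ℕ} (u : Fin d → ZMod p) : ℕ → ZMod p :=
  fun t => if h : t < d then u ⟨t, h⟩ else 0

/-- `tl q p T = mu - E[mu | first T-1 digits]` for `T ≥ 1`, and `tl q p 0 = mu`. -/
noncomputable def tl (q p : ℕ) : ℕ → List ℕ → Bool → (ℕ → ZMod p) → ℝ
  | 0, b, e, l => mu q p b e l
  | 1, b, e, l => mu q p b e l - vol (q * p) b e
  | _ + 2, [], _, _ => 0
  | T + 2, b :: r, e, l =>
      if l 0 = (b : ZMod p) then tl q p (T + 1) r e (fun t => l (t + 1)) / q else 0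

/-- martingale difference -/
noncomputable def dl (q p : ℕ) (T : ℕ) (b : List ℕ) (e : Bool) (l : ℕ → ZMod p) : ℝ :=
  tl q p T b e l - tl q p (T + 1) b e l

/-- excess of a system of corners -/
def exc {ι : Type} [Fintype ι] (n : ℕ) (b : ι → List ℕ) : ℕ := (∑ s, (b s).length) - n

/-- number of `u : Fin (K+1) → ℕ` with `∑ u + 1 = L` -/
def W (K L : ℕ) : ℕ := (L + K - 1).choose K

/-- number of `u : Fin (K+1) → ℕ` with `∑ u + (K+1) = L` -/
def V (K L : ℕ) : ℕ := (L - 1).choose K

/-- discrepancy of a family of points (`n` digits over `{0,…,q-1}`, `q^n` points) -/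
noncomputable def disc {ι I : Type} [Fintype ι] [Fintype I] (n q : ℕ)
    (x : I → ι → ℕ → ℕ) (b : ι → List ℕ) (e : ι → Bool) : ℝ :=
  ∑ i, ∏ s, val (b s) (e s) (x i s) - (q : ℝ) ^ n * ∏ s, vol q (b s) (e s)

/-- the net property of the low digit strings `l c s : ℕ → ZMod p`, `c ∈ C`, `s ≤ K` -/
def Net (K n p : ℕ) {C : Type} (l : C → Fin (K + 1) → ℕ → ZMod p) : Prop :=
  ∀ d : Fin (K + 1) → ℕ, ∑ s, d s = n →
    Function.Bijective (fun (c : C) (s : Fin (K + 1)) (t : Fin (d s)) => l c s t)

/-- the tower part `Sys` -/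
noncomputable def sys (K n q p : ℕ) {C : Type} [Fintype C] (l : C → Fin (K + 1) → ℕ → ZMod p)
    (b : Fin (K + 1) → List ℕ) (e : Fin (K + 1) → Bool) : ℝ :=
  (q : ℝ) ^ n * (∑ c, ∏ s, mu q p (b s) (e s) (l c s) -
    (p : ℝ) ^ n * ∏ s, vol (q * p) (b s) (e s))

/-- there is a finite random family of nets over `{0,…,q-1}` (`n` digits, dimension `K+1`) whose
discrepancy function has small exponential moments -/
def MGF (K n q : ℕ) (lam A B : ℝ) : Prop :=
  ∃ (Ω I : Type) (_ : Fintype Ω) (_ : Nonempty Ω) (_ : Fintype I)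
    (x : Ω → I → Fin (K + 1) → ℕ → ℕ),
    (∀ ω i s t, x ω i s t < q) ∧
    (∀ ω, ∀ y : ℕ → ℕ, (∀ t, y t < q) → ∃! i, ∀ t < n, x ω i 0 t = y t) ∧
    ∀ (b : Fin (K + 1) → List ℕ) (e : Fin (K + 1) → Bool),
      (∀ s, (b s).length ≤ n) → (∀ s, ∀ d ∈ b s, d < q) →
      ∀ σ : ℝ, σ = lam ∨ σ = -lam →
        ∑ ω, Real.exp (σ * disc n q (x ω) b e) ≤
          Fintype.card Ω * Real.exp (min (A * W K (exc n b)) (B * (W K (exc n b) : ℝ) ^ 2))

end DiscTower
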