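import Pool.Agent.Work.DiscTower.Defs

/-! T2: fibre corners, volumes, mean of `mu`. -/

namespace DiscTower
open Finset

theorem val_cmb (p : ℕ) [NeZero p] (b : List ℕ) (e : Bool) (h : ℕ → ℕ) (l : ℕ → ZMod p) :
    val b e (cmb p h l) = val (fibL p b l) (fibE p b e l) h := by
  induction b generalizing h l with
  | nil => rfl
  | cons b r ih =>
    have hp : 0 < p := Nat.pos_of_ne_zero (NeZero.ne p)
    have hv : (l 0).val < p := ZMod.val_lt _
    have hb : p * (b / p) + b % p = b := Nat.div_add_mod b p
    have hm : b % p < p := Nat.mod_lt _ hp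
    by_cases hl : l 0 = (b : ZMod p)
    · have hval : (l 0).val = b % p := by rw [hl, ZMod.val_natCast]
      have e1 : (fun t => cmb p h l (t + 1)) =
          cmb p (fun t => h (t + 1)) (fun t => l (t + 1)) := rfl
      have c1 : (cmb p h l 0 < b) ↔ h 0 < b / p := by
        have h0 : cmb p h l 0 = p * h 0 + b % p := by
          unfold cmb; rw [hval, mul_comm]
        rw [h0]
        conv_lhs => rhs; rw [← hb]
        rw [Nat.add_lt_add_iff_right]
        exact Nat.mul_lt_mul_left hp
      have c2 : (cmb p h l 0 = b) ↔ h 0 = b / p := by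
        have h0 : cmb p h l 0 = p * h 0 + b % p := by
          unfold cmb; rw [hval, mul_comm]
        rw [h0]
        conv_lhs => rhs; rw [← hb]
        rw [Nat.add_right_cancel_iff]
        exact Nat.mul_right_inj (by omega)
      simp only [val, fibL, fibE, if_pos hl, c1, c2]
      rw [e1, ih]
    · have hval : (l 0).val ≠ b % p := by
        intro hc
        apply hl
        apply ZMod.val_injective
        rw [hc, ZMod.val_natCast]
      have h0 : cmb p h l 0 = p * h 0 + (l 0).val := by
        unfold cmb; rw [mul_comm]
      simp only [val, fibL, fibE, if_neg hl]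
      have hne : ¬ (cmb p h l 0 = b) := by
        rw [h0]
        intro hc
        apply hval
        have := congrArg (· % p) hc
        simpa [Nat.mul_add_mod, Nat.mod_eq_of_lt hv] using this
      rw [if_neg hne]
      rcases lt_trichotomy (h 0) (b / p) with hlt | heq | hgt
      · have : cmb p h l 0 < b := by
          rw [h0]
          have h1 : p * (h 0 + 1) ≤ p * (b / p) := Nat.mul_le_mul_left _ hlt
          rw [Nat.mul_add] at h1
          omega
        rw [if_pos this, if_pos hlt]
      · have : cmb p h l 0 < b ↔ (l 0).val < b % p := by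
          rw [h0, heq]
          omega
        rw [if_neg (by omega : ¬ h 0 < b / p), if_pos heq]
        by_cases hc : (l 0).val < b % p
        · rw [if_pos (this.2 hc)]; simp [hc]
        · rw [if_neg (fun hh => hc (this.1 hh))]; simp [hc]
      · have : ¬ cmb p h l 0 < b := by
          rw [h0]
          have h1 : p * (b / p + 1) ≤ p * h 0 := Nat.mul_le_mul_left _ hgt
          rw [Nat.mul_add] at h1
          omega
        rw [if_neg this, if_neg (by omega), if_neg (by omega)]

theorem fibL_length_le (p : ℕ) (b : List ℕ) (l : ℕ → ZMod p) :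
    (fibL p b l).length ≤ b.length := by
  induction b generalizing l with
  | nil => simp [fibL]
  | cons b r ih =>
    unfold fibL
    split_ifs
    · simp only [List.length_cons]
      exact Nat.succ_le_succ (ih _)
    · simp

/-- if the fibre corner has more than `t` digits then `l` follows the path on `[0,t)` -/
theorem fibL_prefix (p : ℕ) (b : List ℕ) (l : ℕ → ZMod p) (t : ℕ)
    (ht : t < (fibL p b l).length) : ∀ t' < t, l t' = ((b.getD t' 0 : ℕ) : ZMod p) := by
  induction b generalizing l t with
  | nil => simp [fibL] at ht
  | cons b r ih =>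
    intro t' ht'
    unfold fibL at ht
    split_ifs at ht with hl
    · simp only [List.length_cons] at ht
      rcases t' with _ | s
      · simpa using hl
      · obtain ⟨t0, rfl⟩ : ∃ t0, t = t0 + 1 := ⟨t - 1, by omega⟩
        have := ih (fun t => l (t + 1)) t0 (by omega) s (by omega)
        simpa using this
    · simp only [List.length_cons, List.length_nil] at ht
      omega

theorem fibL_lt (q p : ℕ) [NeZero p] (b : List ℕ) (l : ℕ → ZMod p) (hb : ∀ d ∈ b, d < q * p) :
    ∀ d ∈ fibL p b l, d < q := by
  induction b generalizing l with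
  | nil => intro d hd; simp [fibL] at hd
  | cons b r ih =>
    have h0 : b / p < q := by
      apply Nat.div_lt_of_lt_mul
      rw [mul_comm]
      exact hb b (by simp)
    intro d hd
    unfold fibL at hd
    split_ifs at hd with hl
    · rcases List.mem_cons.1 hd with rfl | hd
      · exact h0
      · exact ih _ (fun d hd => hb d (List.mem_cons_of_mem _ hd)) d hd
    · rcases List.mem_singleton.1 hd with rfl
      exact h0

theorem vol_nonneg (q : ℕ) (b : List ℕ) (e : Bool) : 0 ≤ vol q b e := by
  induction b with
  | nil => unfold vol; split_ifs <;> norm_num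
  | cons b r ih => unfold vol; positivity

theorem vol_le_one (q : ℕ) (hq : 1 ≤ q) (b : List ℕ) (e : Bool) (hb : ∀ d ∈ b, d < q) :
    vol q b e ≤ 1 := by
  induction b with
  | nil => unfold vol; split_ifs <;> norm_num
  | cons b r ih =>
    unfold vol
    have h1 := ih (fun d hd => hb d (List.mem_cons_of_mem _ hd))
    have h2 : b < q := hb b (by simp)
    have h3 : ((b : ℝ) + 1) ≤ q := by exact_mod_cast h2
    rw [div_le_one (by exact_mod_cast hq)]
    linarith

theorem val_nonneg (b : List ℕ) (e : Bool) (x : ℕ → ℕ) : 0 ≤ val b e x := by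
  induction b generalizing x with
  | nil => unfold val; split_ifs <;> norm_num
  | cons b r ih =>
    unfold val
    split_ifs
    · norm_num
    · exact ih _
    · exact le_rfl

theorem val_le_one (b : List ℕ) (e : Bool) (x : ℕ → ℕ) : val b e x ≤ 1 := by
  induction b generalizing x with
  | nil => unfold val; split_ifs <;> norm_num
  | cons b r ih =>
    unfold val
    split_ifs
    · exact le_rfl
    · exact ih _
    · norm_num

theorem sum_zmod_val (p : ℕ) [NeZero p] (f : ℕ → ℝ) :
    ∑ v : ZMod p, f v.val = ∑ i ∈ range p, f i := by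
  obtain ⟨k, rfl⟩ : ∃ k, p = k + 1 :=
    ⟨p - 1, by have := Nat.pos_of_ne_zero (NeZero.ne p); omega⟩
  exact Fin.sum_univ_eq_sum_range f (k + 1)

theorem ext_cons_zero {p n : ℕ} (v : ZMod p) (u : Fin n → ZMod p) :
    ext (Fin.cons v u : Fin (n + 1) → ZMod p) 0 = v := by
  simp [ext]

theorem ext_cons_succ {p n : ℕ} (v : ZMod p) (u : Fin n → ZMod p) :
    (fun t => ext (Fin.cons v u : Fin (n + 1) → ZMod p) (t + 1)) = ext u := by
  funext t
  unfold ext
  by_cases h : t < n
  · rw [dif_pos h, dif_pos (by omega)]
    exact Fin.cons_succ (α := fun _ => ZMod p) v u ⟨t, h⟩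
  · rw [dif_neg h, dif_neg (by omega)]

/-- the mean of `mu` over all low digit strings is the volume over the big alphabet -/
theorem mean_mu (q p n : ℕ) [NeZero p] (hq : 1 ≤ q) (b : List ℕ) (e : Bool)
    (hb : b.length ≤ n) :
    ∑ u : Fin n → ZMod p, mu q p b e (ext u) = (p : ℝ) ^ n * vol (q * p) b e := by
  have hp : 0 < p := Nat.pos_of_ne_zero (NeZero.ne p)
  have hp' : (p : ℝ) ≠ 0 := by exact_mod_cast hp.ne'
  have hq' : (q : ℝ) ≠ 0 := by
    have : 0 < q := hq
    exact_mod_cast this.ne'
  induction b generalizing n with
  | nil =>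
    have : ∀ u : Fin n → ZMod p, mu q p [] e (ext u) = vol (q * p) [] e := by
      intro u; rfl
    rw [Finset.sum_congr rfl (fun u _ => this u), Finset.sum_const, Finset.card_univ,
      Fintype.card_fun, ZMod.card, Fintype.card_fin, nsmul_eq_mul]
    push_cast
    rfl
  | cons b r ih =>
    obtain ⟨n, rfl⟩ : ∃ n', n = n' + 1 := ⟨n - 1, by simp at hb; omega⟩
    have hr : r.length ≤ n := by simpa using hb
    have ihn := ih n hr
    have hm : b % p < p := Nat.mod_lt _ hp
    -- value at a cons
    have key : ∀ (v : ZMod p) (u : Fin n → ZMod p),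
        mu q p (b :: r) e (ext (Fin.cons v u : Fin (n + 1) → ZMod p)) =
          ((b / p : ℕ) + (if v.val < b % p then (1 : ℝ) else 0) +
            (if v.val = b % p then mu q p r e (ext u) else 0)) / q := by
      intro v u
      unfold mu
      simp only [fibL, fibE, ext_cons_zero, ext_cons_succ]
      by_cases hv : v = (b : ZMod p)
      · have hval : v.val = b % p := by rw [hv, ZMod.val_natCast]
        simp only [if_pos hv, hval, lt_irrefl, if_false, if_true, vol]
        ring
      · have hval : v.val ≠ b % p := by
          intro hc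
          apply hv
          apply ZMod.val_injective
          rw [hc, ZMod.val_natCast]
        simp only [if_neg hv, if_neg hval, vol, add_zero]
        by_cases hlt : v.val < b % p <;> simp [hlt]
    rw [← (Fin.consEquiv (fun _ : Fin (n + 1) => ZMod p)).sum_comp, Fintype.sum_prod_type]
    have h1 : ∀ v : ZMod p, ∑ u : Fin n → ZMod p,
        mu q p (b :: r) e (ext ((Fin.consEquiv (fun _ : Fin (n + 1) => ZMod p)) (v, u))) =
        (p : ℝ) ^ n * (((b / p : ℕ) + (if v.val < b % p then (1 : ℝ) else 0) +
            (if v.val = b % p then vol (q * p) r e else 0)) / q) := by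
      intro v
      have : ∀ u : Fin n → ZMod p,
          mu q p (b :: r) e (ext ((Fin.consEquiv (fun _ : Fin (n + 1) => ZMod p)) (v, u))) =
          ((b / p : ℕ) + (if v.val < b % p then (1 : ℝ) else 0) +
            (if v.val = b % p then mu q p r e (ext u) else 0)) / q := fun u => key v u
      rw [Finset.sum_congr rfl (fun u _ => this u), ← Finset.sum_div, Finset.sum_add_distrib,
        Finset.sum_const, Finset.card_univ, Fintype.card_fun, ZMod.card, Fintype.card_fin,
        nsmul_eq_mul]
      by_cases hval : v.val = b % p
      · simp only [if_pos hval]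
        rw [ihn]
        push_cast
        ring
      · simp only [if_neg hval, Finset.sum_const_zero]
        push_cast
        ring
    rw [Finset.sum_congr rfl (fun v _ => h1 v)]
    rw [sum_zmod_val p (fun i => (p : ℝ) ^ n * (((b / p : ℕ) + (if i < b % p then (1 : ℝ) else 0) +
            (if i = b % p then vol (q * p) r e else 0)) / q))]
    rw [← Finset.mul_sum, ← Finset.sum_div, Finset.sum_add_distrib, Finset.sum_add_distrib]
    have s1 : ∑ i ∈ range p, (if i < b % p then (1 : ℝ) else 0) = (b % p : ℕ) := by
      rw [← Finset.sum_filter]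
      have : (range p).filter (fun i => i < b % p) = range (b % p) := by
        ext i
        simp only [Finset.mem_filter, Finset.mem_range]
        omega
      rw [this]
      simp
    have s2 : ∑ i ∈ range p, (if i = b % p then vol (q * p) r e else 0) = vol (q * p) r e := by
      rw [Finset.sum_ite_eq' (range p) (b % p) (fun _ => vol (q * p) r e)]
      rw [if_pos (Finset.mem_range.2 hm)]
    rw [s1, s2, Finset.sum_const, Finset.card_range, nsmul_eq_mul]
    have hbb : (p : ℝ) * ((b / p : ℕ) : ℝ) + ((b % p : ℕ) : ℝ) = b := by
      exact_mod_cast Nat.div_add_mod b p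
    have hvol : vol (q * p) (b :: r) e = (b + vol (q * p) r e) / ((q : ℝ) * p) := by
      conv_lhs => unfold vol
      push_cast
      rfl
    rw [hvol, hbb, pow_succ]
    field_simp

end DiscTower
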