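import Pool.Agent.Work.DiscTower.Defs

/-! T6: number of tuples with given sum; comparison of `W` and `V`. -/

namespace DiscTower
open Finset

theorem card_tuples (K r : ℕ) :
    (Finset.Nat.antidiagonalTuple (K + 1) r).card = (r + K).choose K := by
  have h : ((univ : Finset (Fin (K + 1))).finsuppAntidiag r).card =
      (Finset.Nat.antidiagonalTuple (K + 1) r).card := by
    apply Finset.card_bij (fun (f : Fin (K + 1) →₀ ℕ) _ => (f : Fin (K + 1) → ℕ))
    · intro f hf
      rw [Finset.Nat.mem_antidiagonalTuple]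
      exact (mem_finsuppAntidiag.1 hf).1
    · intro f _ g _ hfg
      exact DFunLike.coe_injective hfg
    · intro g hg
      refine ⟨Finsupp.equivFunOnFinite.symm g, ?_, ?_⟩
      · rw [mem_finsuppAntidiag]
        exact ⟨Finset.Nat.mem_antidiagonalTuple.1 hg, subset_univ _⟩
      · rfl
  rw [← h, card_finsuppAntidiag_nat_eq_choose, Finset.card_univ, Fintype.card_fin,
    show K + 1 + r - 1 = r + K by omega]
  exact Nat.choose_symm_add

/-- number of `u : Fin K → ℕ` with `∑ u + 1 ≤ L` (each `u s < L`) -/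
theorem card_tuples_le (K L : ℕ) (hK : 1 ≤ K) :
    ((Fintype.piFinset (fun _ : Fin K => range L)).filter (fun u => ∑ s, u s + 1 ≤ L)).card
      = W K L := by
  rcases Nat.eq_zero_or_pos L with rfl | hL
  · rw [Finset.card_eq_zero.2]
    · unfold W
      rw [Nat.choose_eq_zero_of_lt (by omega)]
    · rw [Finset.filter_eq_empty_iff]
      intro u _ hu
      omega
  · have hW : W K L = ((L - 1) + K).choose K := by
      unfold W
      rw [show L + K - 1 = L - 1 + K by omega]
    rw [hW, ← card_tuples]
    apply Finset.card_bij (fun u _ => (Fin.cons (L - 1 - ∑ s, u s) u : Fin (K + 1) → ℕ))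
    · intro u hu
      rw [Finset.mem_filter] at hu
      rw [Finset.Nat.mem_antidiagonalTuple, Fin.sum_univ_succ]
      simp only [Fin.cons_zero, Fin.cons_succ]
      omega
    · intro u _ v _ huv
      funext s
      have := congrFun huv s.succ
      simpa using this
    · intro g hg
      rw [Finset.Nat.mem_antidiagonalTuple, Fin.sum_univ_succ] at hg
      refine ⟨fun s => g s.succ, ?_, ?_⟩
      · rw [Finset.mem_filter, Fintype.mem_piFinset]
        refine ⟨fun s => ?_, ?_⟩
        · rw [Finset.mem_range]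
          have : g s.succ ≤ ∑ i : Fin K, g i.succ :=
            Finset.single_le_sum (f := fun i : Fin K => g i.succ) (fun _ _ => Nat.zero_le _)
              (Finset.mem_univ s)
          omega
        · show ∑ s : Fin K, g s.succ + 1 ≤ L
          omega
      · funext i
        refine Fin.cases ?_ (fun j => ?_) i
        · simp only [Fin.cons_zero]
          show L - 1 - ∑ s : Fin K, g s.succ = g 0
          omega
        · simp only [Fin.cons_succ]

theorem W_mono (K : ℕ) {L L' : ℕ} (h : L ≤ L') : W K L ≤ W K L' := by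
  unfold W
  exact Nat.choose_le_choose K (by omega)

theorem W_zero (K : ℕ) (hK : 1 ≤ K) : W K 0 = 0 := by
  unfold W
  exact Nat.choose_eq_zero_of_lt (by omega)

theorem W_le_V (K h L : ℕ) (hK : 1 ≤ K) (hh : 1 ≤ h) (hL : K + K * K * h ≤ L) :
    (W K L : ℝ) ≤ Real.exp (1 / h) * V K L := by
  have hf : (0 : ℝ) < K.factorial := by exact_mod_cast K.factorial_pos
  have hKr : (0 : ℝ) < K := by exact_mod_cast hK
  have hhr : (0 : ℝ) < h := by exact_mod_cast hh
  have e1 : (W K L : ℝ) * K.factorial = ∏ i ∈ range K, ((L + K - 1 - i : ℕ) : ℝ) := by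
    have := Nat.descFactorial_eq_factorial_mul_choose (L + K - 1) K
    rw [Nat.descFactorial_eq_prod_range] at this
    unfold W
    rw [mul_comm]
    exact_mod_cast this.symm
  have e2 : (V K L : ℝ) * K.factorial = ∏ i ∈ range K, ((L - 1 - i : ℕ) : ℝ) := by
    have := Nat.descFactorial_eq_factorial_mul_choose (L - 1) K
    rw [Nat.descFactorial_eq_prod_range] at this
    unfold V
    rw [mul_comm]
    exact_mod_cast this.symm
  have e3 : (∏ i ∈ range K, ((L + K - 1 - i : ℕ) : ℝ)) ≤
      ∏ i ∈ range K, (Real.exp (1 / (K * h)) * ((L - 1 - i : ℕ) : ℝ)) := by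
    apply Finset.prod_le_prod
    · intro i _
      positivity
    · intro i hi
      have hi' := Finset.mem_range.1 hi
      have c1 : ((L + K - 1 - i : ℕ) : ℝ) = ((L - 1 - i : ℕ) : ℝ) + K := by
        rw [← Nat.cast_add]
        congr 1
        omega
      have c2 : (K : ℝ) * K * h ≤ ((L - 1 - i : ℕ) : ℝ) := by
        have : K * K * h ≤ L - 1 - i := by omega
        exact_mod_cast this
      have c3 : (K : ℝ) ≤ 1 / (K * h) * ((L - 1 - i : ℕ) : ℝ) := by
        rw [div_mul_eq_mul_div, le_div_iff₀ (by positivity)]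
        nlinarith
      have c4 : 1 + 1 / ((K : ℝ) * h) ≤ Real.exp (1 / (K * h)) := by
        have := Real.add_one_le_exp (1 / ((K : ℝ) * h))
        linarith
      rw [c1]
      calc ((L - 1 - i : ℕ) : ℝ) + K
          ≤ ((L - 1 - i : ℕ) : ℝ) + 1 / (K * h) * ((L - 1 - i : ℕ) : ℝ) := by linarith
        _ = (1 + 1 / ((K : ℝ) * h)) * ((L - 1 - i : ℕ) : ℝ) := by ring
        _ ≤ _ := mul_le_mul_of_nonneg_right c4 (Nat.cast_nonneg _)
  rw [Finset.prod_mul_distrib, Finset.prod_const, Finset.card_range, ← Real.exp_nat_mul] at e3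
  have e4 : (K : ℝ) * (1 / (K * h)) = 1 / h := by
    field_simp
  rw [e4, ← e1, ← e2, ← mul_assoc] at e3
  exact le_of_mul_le_mul_right e3 hf

theorem W_le_pow (K L : ℕ) (hK : 1 ≤ K) : (W K L : ℝ) ≤ ((L + K : ℕ) : ℝ) ^ K := by
  have h1 : W K L ≤ (L + K) ^ K := by
    unfold W
    calc (L + K - 1).choose K ≤ (L + K).choose K := Nat.choose_le_choose K (by omega)
      _ ≤ (L + K).descFactorial K := by
        rw [Nat.descFactorial_eq_factorial_mul_choose]
        exact Nat.le_mul_of_pos_left _ K.factorial_pos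
      _ ≤ (L + K) ^ K := Nat.descFactorial_le_pow _ _
  exact_mod_cast h1

end DiscTower
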