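import Pool.Agent.Work.DiscTower.Thr
import Pool.Agent.Work.DiscTower.Tuples

/-! T14: union bound, a good set of `q^n` points. -/

namespace DiscTower
open Finset

theorem exc_le (K n : ℕ) (b : Fin (K + 1) → List ℕ) (hlen : ∀ s, (b s).length ≤ n) :
    exc n b ≤ K * n := by
  unfold exc
  have h1 : ∑ s, (b s).length ≤ ∑ _s : Fin (K + 1), n := sum_le_sum fun s _ => hlen s
  rw [sum_const, card_univ, Fintype.card_fin, smul_eq_mul] at h1
  have h2 : (K + 1) * n = K * n + n := by ring
  omega

/-- the abstract union bound -/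
theorem good_union {Ω J : Type} [Fintype Ω] [Nonempty Ω] [Fintype J] (D : Ω → J → ℝ)
    (lam T : ℝ) (M : ℝ) (hlam : 0 < lam) (hJ : (Fintype.card J : ℝ) ≤ M) (hM : 0 < M)
    (h : ∀ j, ∀ σ : ℝ, σ = lam ∨ σ = -lam →
      ∑ ω, Real.exp (σ * D ω j) ≤ Fintype.card Ω * Real.exp T) :
    ∃ ω, ∀ j, |D ω j| ≤ (T + Real.log 2 + Real.log M) / lam := by
  by_contra hcon
  push Not at hcon
  set S := (T + Real.log 2 + Real.log M) / lam with hS
  have hΩ : (0 : ℝ) < Fintype.card Ω := by exact_mod_cast Fintype.card_pos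
  have hexp : Real.exp (lam * S) = Real.exp T * 2 * M := by
    have : lam * S = T + Real.log 2 + Real.log M := by
      rw [hS]; field_simp
    rw [this, Real.exp_add, Real.exp_add, Real.exp_log two_pos, Real.exp_log hM]
  have hlow : ∀ ω, Real.exp (lam * S) <
      ∑ j, (Real.exp (lam * D ω j) + Real.exp (-lam * D ω j)) := by
    intro ω
    obtain ⟨j, hj⟩ := hcon ω
    have h1 : Real.exp (lam * S) < Real.exp (lam * D ω j) + Real.exp (-lam * D ω j) := by
      have e1 := Real.exp_pos (lam * D ω j)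
      have e2 := Real.exp_pos (-lam * D ω j)
      rcases lt_abs.mp hj with h2 | h2
      · have : lam * S < lam * D ω j := mul_lt_mul_of_pos_left h2 hlam
        have := Real.exp_lt_exp.mpr this
        linarith
      · have : lam * S < -lam * D ω j := by
          have := mul_lt_mul_of_pos_left h2 hlam
          linarith
        have := Real.exp_lt_exp.mpr this
        linarith
    refine lt_of_lt_of_le h1 ?_
    exact single_le_sum (f := fun j => Real.exp (lam * D ω j) + Real.exp (-lam * D ω j))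
      (fun j _ => (add_pos (Real.exp_pos _) (Real.exp_pos _)).le) (mem_univ j)
  have hsum : ∑ _ω : Ω, Real.exp (lam * S) <
      ∑ ω, ∑ j, (Real.exp (lam * D ω j) + Real.exp (-lam * D ω j)) :=
    sum_lt_sum_of_nonempty univ_nonempty fun ω _ => hlow ω
  rw [sum_comm, sum_const, card_univ, nsmul_eq_mul] at hsum
  have hup : ∑ j, ∑ ω, (Real.exp (lam * D ω j) + Real.exp (-lam * D ω j)) ≤
      ∑ _j : J, 2 * (Fintype.card Ω * Real.exp T) := by
    apply sum_le_sum
    intro j _
    rw [sum_add_distrib]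
    have h1 := h j lam (Or.inl rfl)
    have h2 := h j (-lam) (Or.inr rfl)
    linarith
  rw [sum_const, card_univ, nsmul_eq_mul] at hup
  have h3 := lt_of_lt_of_le hsum hup
  rw [hexp] at h3
  have h4 : (Fintype.card J : ℝ) * (2 * (Fintype.card Ω * Real.exp T)) ≤
      M * (2 * (Fintype.card Ω * Real.exp T)) :=
    mul_le_mul_of_nonneg_right hJ (by positivity)
  have h5 : (Fintype.card Ω : ℝ) * (Real.exp T * 2 * M) =
      M * (2 * (Fintype.card Ω * Real.exp T)) := by ring
  linarith

theorem good_set (K n q : ℕ) (hq : 1 ≤ q) (lam A B : ℝ) (hlam : 0 < lam)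
    (hA : 0 ≤ A) (h : MGF K n q lam A B) :
    ∃ (I : Type) (_ : Fintype I) (x : I → Fin (K + 1) → ℕ), (∀ i s, x i s < q ^ n) ∧
      (∀ y < q ^ n, ∃! i, x i 0 = y) ∧
      ∀ a : Fin (K + 1) → ℕ, (∀ s, a s ≤ q ^ n) →
        |((univ.filter (fun i : I => ∀ s, x i s < a s)).card : ℝ) -
          (q : ℝ) ^ n * ∏ s, ((a s : ℝ) / (q : ℝ) ^ n)| ≤
        (A * W K (K * n) + Real.log 2 + (K + 1) * Real.log ((q : ℝ) ^ n + 1)) / lam := by
  obtain ⟨Ω, I, fΩ, nΩ, fI, x, hx, h0, hm⟩ := h
  have hc := fun a : Fin (q ^ n + 1) => corner_exists q n a hq (Nat.lt_succ_iff.mp a.2)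
  choose b e hb1 hb2 hb3 hb4 using hc
  have hq0 : (0 : ℝ) < (q : ℝ) ^ n := by positivity
  have key : ∃ ω, ∀ a : Fin (K + 1) → Fin (q ^ n + 1),
      |disc n q (x ω) (fun s => b (a s)) (fun s => e (a s))| ≤
        (A * W K (K * n) + Real.log 2 + Real.log (((q : ℝ) ^ n + 1) ^ (K + 1))) / lam := by
    apply good_union (J := Fin (K + 1) → Fin (q ^ n + 1))
      (fun ω a => disc n q (x ω) (fun s => b (a s)) (fun s => e (a s))) lam
      (A * W K (K * n)) (((q : ℝ) ^ n + 1) ^ (K + 1)) hlam
    · simp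
    · positivity
    · intro a σ hσ
      refine (hm (fun s => b (a s)) (fun s => e (a s)) (fun s => hb1 _) (fun s => hb2 _)
        σ hσ).trans ?_
      apply mul_le_mul_of_nonneg_left _ (Nat.cast_nonneg _)
      apply Real.exp_le_exp.mpr
      refine (min_le_left _ _).trans ?_
      apply mul_le_mul_of_nonneg_left _ hA
      exact_mod_cast W_mono K (exc_le K n _ (fun s => hb1 _))
  obtain ⟨ω, hω⟩ := key
  refine ⟨I, fI, fun i s => num q n (x ω i s), fun i s => num_lt q n _ (fun t => hx ω i s t),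
    ?_, ?_⟩
  · intro y hy
    obtain ⟨z, hz, hzy⟩ := exists_digits q n y hq hy
    obtain ⟨i, hi, hi'⟩ := h0 ω z hz
    refine ⟨i, ?_, ?_⟩
    · simp only
      rw [← hzy, num_eq_iff q n _ _ (fun t => hx ω i 0 t) hz]
      exact hi
    · intro j hj
      simp only at hj
      apply hi'
      rw [← hzy, num_eq_iff q n _ _ (fun t => hx ω j 0 t) hz] at hj
      exact hj
  · intro a ha
    have h1 := hω (fun s => ⟨a s, Nat.lt_succ_of_le (ha s)⟩)
    have h2 : disc n q (x ω) (fun s => b ⟨a s, Nat.lt_succ_of_le (ha s)⟩)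
        (fun s => e ⟨a s, Nat.lt_succ_of_le (ha s)⟩) =
        ((univ.filter (fun i : I => ∀ s, num q n (x ω i s) < a s)).card : ℝ) -
          (q : ℝ) ^ n * ∏ s, ((a s : ℝ) / (q : ℝ) ^ n) := by
      unfold disc
      congr 1
      · rw [card_filter]
        push_cast
        apply sum_congr rfl
        intro i _
        simp only [hb4 _ _ (fun t => hx ω i _ t)]
        by_cases h3 : ∀ s, num q n (x ω i s) < a s
        · rw [if_pos h3]
          apply prod_eq_one
          intro s _
          rw [if_pos (h3 s)]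
        · rw [if_neg h3]
          push Not at h3
          obtain ⟨s, hs⟩ := h3
          apply prod_eq_zero (mem_univ s)
          rw [if_neg (not_lt.mpr hs)]
      · simp only [hb3]
    rw [h2, Real.log_pow] at h1
    push_cast at h1
    exact h1

end DiscTower
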