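import Mathlib
import Pool.Agent.Work.DiscTower.Tuples

/-! T16: choice of the parameters. For `N` large: `h` with `p^h` a small power of `log N`,
`n` with `N ≤ (p^h)^n`. -/

namespace DiscTower
open Finset

theorem par_log_le_half {x : ℝ} (hx : 0 < x) : Real.log x ≤ x / 2 := by
  have h2 : Real.log (x / 2) ≤ x / 2 - 1 := Real.log_le_sub_one_of_pos (by positivity)
  have h3 : Real.log (x / 2) = Real.log x - Real.log 2 := Real.log_div hx.ne' two_ne_zero
  have h4 : Real.log 2 < 1 := by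
    have := Real.log_two_lt_d9
    linarith
  linarith

/-- choice of the number of digits `n` and the number of levels `h` -/
theorem par_choice (p a n0 : ℕ) (hp : 2 ≤ p) (ha : 1 ≤ a) :
    ∃ N0 : ℕ, 3 ≤ N0 ∧ ∀ N : ℕ, N0 ≤ N → ∃ n h : ℕ, n0 ≤ n ∧ p ^ (a * h) ≤ n ∧
      N ≤ (p ^ h) ^ n ∧ (n : ℝ) ≤ 8 * a * (Real.log N / Real.log (Real.log N)) := by
  have hpr : (2 : ℝ) ≤ p := by exact_mod_cast hp
  have har : (1 : ℝ) ≤ a := by exact_mod_cast ha
  have hlp : 0 < Real.log p := Real.log_pos (by linarith)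
  -- eventually conditions
  have t1 : Filter.Tendsto (fun N : ℕ => Real.log N) Filter.atTop Filter.atTop :=
    Real.tendsto_log_atTop.comp tendsto_natCast_atTop_atTop
  have t2 : Filter.Tendsto (fun N : ℕ => Real.log (Real.log N)) Filter.atTop Filter.atTop :=
    Real.tendsto_log_atTop.comp t1
  have e1 : ∀ᶠ N : ℕ in Filter.atTop, 8 * a * Real.log p + 2 * n0 + 2 ≤ Real.log (Real.log N) :=
    t2.eventually_ge_atTop _
  have e2 : ∀ᶠ N : ℕ in Filter.atTop, (1 : ℝ) ≤ Real.log N := t1.eventually_ge_atTop _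
  obtain ⟨N1, hN1⟩ := Filter.eventually_atTop.mp (e1.and e2)
  refine ⟨max N1 3, le_max_right _ _, fun N hN => ?_⟩
  obtain ⟨hℓ, hL1⟩ := hN1 N ((le_max_left _ _).trans hN)
  have hN3 : 3 ≤ N := (le_max_right _ _).trans hN
  have hNr : (0 : ℝ) < N := by
    have : 0 < N := by omega
    exact_mod_cast this
  set L := Real.log N with hL
  set ℓ := Real.log L with hℓdef
  have hn0 : (0 : ℝ) ≤ n0 := Nat.cast_nonneg _
  have hapos : 0 ≤ 8 * (a : ℝ) * Real.log p := by positivity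
  have hℓ2 : 2 ≤ ℓ := by linarith
  have hℓp : 0 < ℓ := by linarith
  have hLp : 0 < L := by linarith
  have hLℓ : ℓ ≤ L / 2 := par_log_le_half hLp
  set x := 4 * (a : ℝ) * (L / ℓ) with hx
  have hratio : 2 ≤ L / ℓ := by
    rw [le_div_iff₀ hℓp]; linarith
  have hx1 : 1 ≤ x := by
    have : 4 * 1 * (2 : ℝ) ≤ 4 * a * (L / ℓ) := by
      apply mul_le_mul _ hratio (by norm_num) (by positivity)
      linarith
    linarith
  have hxp : 0 < x := by linarith
  set n := ⌈x⌉₊ with hn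
  have hnx : x ≤ n := Nat.le_ceil x
  have hnx2 : (n : ℝ) < x + 1 := Nat.ceil_lt_add_one hxp.le
  have hnp : (0 : ℝ) < n := lt_of_lt_of_le hxp hnx
  have hnne : n ≠ 0 := by
    intro h
    rw [h] at hnp
    simp at hnp
  -- log n ≥ ℓ / 2
  have hlogn : ℓ / 2 ≤ Real.log n := by
    have h1 : Real.log x ≤ Real.log n := Real.log_le_log hxp hnx
    have h2 : Real.log (L / ℓ) ≤ Real.log x := by
      apply Real.log_le_log (by positivity)
      rw [hx]
      have : 1 * (L / ℓ) ≤ 4 * a * (L / ℓ) := by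
        apply mul_le_mul_of_nonneg_right _ (by positivity)
        linarith
      linarith
    have h3 : Real.log (L / ℓ) = ℓ - Real.log ℓ := Real.log_div hLp.ne' hℓp.ne'
    have h4 : Real.log ℓ ≤ ℓ / 2 := par_log_le_half hℓp
    linarith
  have hn0n : n0 ≤ n := by
    have h1 : Real.log n ≤ n / 2 := par_log_le_half hnp
    have : (n0 : ℝ) ≤ n := by linarith
    exact_mod_cast this
  set m := Nat.log p n with hm
  set h := m / a with hh
  have hah : a * h ≤ m := Nat.mul_div_le m a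
  have hpah : p ^ (a * h) ≤ n :=
    (Nat.pow_le_pow_right (by omega) hah).trans (Nat.pow_log_le_self p hnne)
  refine ⟨n, h, hn0n, hpah, ?_, ?_⟩
  · -- N ≤ (p^h)^n
    have hm1 : n < p ^ (m + 1) := Nat.lt_pow_succ_log_self (by omega) n
    have hm2 : Real.log n ≤ (m + 1) * Real.log p := by
      have h1 : (n : ℝ) ≤ (p : ℝ) ^ (m + 1) := by exact_mod_cast hm1.le
      have h2 := Real.log_le_log hnp h1
      rw [Real.log_pow] at h2
      push_cast at h2
      exact h2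
    have hmh : m < a * h + a := by
      have := Nat.lt_mul_div_succ m (show 0 < a by omega)
      rw [Nat.mul_add, Nat.mul_one] at this
      exact this
    have hmh' : (m : ℝ) + 1 ≤ a * h + a := by exact_mod_cast hmh
    have h5 : Real.log n ≤ (a * h + a) * Real.log p :=
      hm2.trans (mul_le_mul_of_nonneg_right hmh' hlp.le)
    -- a h log p ≥ log n - a log p ≥ ℓ/2 - a log p ≥ ℓ / 4
    have h6 : ℓ / 4 ≤ a * (h * Real.log p) := by nlinarith
    have h7 : L ≤ n * (h * Real.log p) := by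
      have h8 : L = x * (ℓ / (4 * a)) := by
        rw [hx]; field_simp
      have h9 : ℓ / (4 * a) ≤ h * Real.log p := by
        rw [div_le_iff₀ (by positivity)]
        nlinarith
      rw [h8]
      apply mul_le_mul hnx h9 (by positivity) hnp.le
    have h8 : (N : ℝ) ≤ ((p ^ h) ^ n : ℕ) := by
      push_cast
      have hpos : (0 : ℝ) < ((p : ℝ) ^ h) ^ n := by positivity
      rw [← Real.log_le_log_iff hNr hpos, Real.log_pow, Real.log_pow]
      exact h7
    exact_mod_cast h8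
  · have : (n : ℝ) ≤ 2 * x := by linarith
    calc (n : ℝ) ≤ 2 * x := this
      _ = 8 * a * (L / ℓ) := by rw [hx]; ring


/-- the bound for given parameters, in terms of `n` -/
theorem par_bound (K p h n : ℕ) (hK : 2 ≤ K) (hp : 2 ≤ p) (hh : 1 ≤ h) (hn : 1 ≤ n)
    (hphn : p ^ ((2 * K + 1) * h) ≤ n) (lam : ℝ)
    (hlam : lam = n * Real.log ((p : ℝ) ^ h) / (n : ℝ) ^ K) : 0 < lam ∧
      ((Real.exp (1 / h)) ^ h *
            (2 * lam * (p : ℝ) ^ K +
              4 * lam ^ 2 * (p : ℝ) ^ (K * (h + 1)) * W K (K + K * K * h)) * W K (K * n) +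
          Real.log 2 + (K + 1) * Real.log (((p : ℝ) ^ h) ^ n + 1)) / lam + (K + 1) ≤
        (2 * Real.exp 1 * (p : ℝ) ^ K * (2 * K) ^ K +
          4 * Real.exp 1 * Real.log p * (p : ℝ) ^ K * (3 * K * K) ^ K * (2 * K) ^ K +
          (2 * K + 3) + (K + 1)) * (n : ℝ) ^ K := by
  have hpr : (2 : ℝ) ≤ p := by exact_mod_cast hp
  have hKr : (2 : ℝ) ≤ K := by exact_mod_cast hK
  have hhr : (1 : ℝ) ≤ h := by exact_mod_cast hh
  have hnr : (1 : ℝ) ≤ n := by exact_mod_cast hn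
  have hp0 : (0 : ℝ) < p := by linarith
  have hn0 : (0 : ℝ) < n := by linarith
  have hh0 : (0 : ℝ) < h := by linarith
  have hK0 : (0 : ℝ) < K := by linarith
  have hlp : 0 < Real.log p := Real.log_pos (by linarith)
  have hlogh : Real.log ((p : ℝ) ^ h) = h * Real.log p := Real.log_pow _ _
  rw [hlogh] at hlam
  have hnK : (0 : ℝ) < (n : ℝ) ^ K := by positivity
  have hnK1 : (1 : ℝ) ≤ (n : ℝ) ^ K := one_le_pow₀ hnr
  have hlam0 : 0 < lam := by rw [hlam]; positivity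
  have hlamn : lam * (n : ℝ) ^ K = n * (h * Real.log p) := by
    rw [hlam]; field_simp
  refine ⟨hlam0, ?_⟩
  have he : (Real.exp (1 / (h : ℝ))) ^ h = Real.exp 1 := by
    rw [← Real.exp_nat_mul]
    congr 1
    field_simp
  rw [he]
  have he0 : 0 < Real.exp 1 := Real.exp_pos 1
  -- W bounds
  have hW1 : (W K (K * n) : ℝ) ≤ (2 * K) ^ K * (n : ℝ) ^ K := by
    refine (W_le_pow K (K * n) (by omega)).trans ?_
    rw [← mul_pow]
    apply pow_le_pow_left₀ (Nat.cast_nonneg _)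
    push_cast
    nlinarith
  have hW2 : (W K (K + K * K * h) : ℝ) ≤ (3 * K * K) ^ K * (h : ℝ) ^ K := by
    refine (W_le_pow K (K + K * K * h) (by omega)).trans ?_
    rw [← mul_pow]
    apply pow_le_pow_left₀ (Nat.cast_nonneg _)
    push_cast
    have h1 : (K : ℝ) ≤ K * K * h := by
      have : (K : ℝ) * 1 ≤ K * (K * h) := by
        apply mul_le_mul_of_nonneg_left _ hK0.le
        nlinarith
      nlinarith
    nlinarith
  have hW1n : (0 : ℝ) ≤ W K (K * n) := Nat.cast_nonneg _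
  have hW2n : (0 : ℝ) ≤ W K (K + K * K * h) := Nat.cast_nonneg _
  -- the power
  have hhp : (h : ℝ) ≤ (p : ℝ) ^ h := by
    have h1 : h ≤ p ^ h := (Nat.lt_pow_self (by omega)).le
    exact_mod_cast h1
  have hpow : (h : ℝ) ^ (K + 1) * (p : ℝ) ^ (K * h) ≤ n := by
    have h1 : (h : ℝ) ^ (K + 1) ≤ ((p : ℝ) ^ h) ^ (K + 1) :=
      pow_le_pow_left₀ hh0.le hhp _
    have h2 : (((p : ℝ) ^ h) ^ (K + 1)) * (p : ℝ) ^ (K * h) = (p : ℝ) ^ ((2 * K + 1) * h) := by
      rw [← pow_mul, ← pow_add]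
      congr 1
      ring
    have h3 : (p : ℝ) ^ ((2 * K + 1) * h) ≤ n := by exact_mod_cast hphn
    calc (h : ℝ) ^ (K + 1) * (p : ℝ) ^ (K * h) ≤ ((p : ℝ) ^ h) ^ (K + 1) * (p : ℝ) ^ (K * h) :=
          mul_le_mul_of_nonneg_right h1 (by positivity)
      _ = (p : ℝ) ^ ((2 * K + 1) * h) := h2
      _ ≤ n := h3
  -- term (b)
  have hb : lam * (p : ℝ) ^ (K * (h + 1)) * W K (K + K * K * h) * W K (K * n) ≤
      Real.log p * (p : ℝ) ^ K * (3 * K * K) ^ K * (2 * K) ^ K * (n : ℝ) ^ K := by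
    have h1 : lam * (p : ℝ) ^ (K * (h + 1)) * W K (K + K * K * h) * W K (K * n) ≤
        lam * (p : ℝ) ^ (K * (h + 1)) * ((3 * K * K) ^ K * (h : ℝ) ^ K) *
          ((2 * K) ^ K * (n : ℝ) ^ K) := by
      apply mul_le_mul _ hW1 hW1n (by positivity)
      exact mul_le_mul_of_nonneg_left hW2 (by positivity)
    have h2 : lam * (p : ℝ) ^ (K * (h + 1)) * ((3 * K * K) ^ K * (h : ℝ) ^ K) *
          ((2 * K) ^ K * (n : ℝ) ^ K) =
        (Real.log p * (p : ℝ) ^ K * (3 * K * K) ^ K * (2 * K) ^ K) *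
          (n * ((h : ℝ) ^ (K + 1) * (p : ℝ) ^ (K * h))) := by
      have e1 : (p : ℝ) ^ (K * (h + 1)) = (p : ℝ) ^ (K * h) * (p : ℝ) ^ K := by
        rw [← pow_add]; congr 1
      rw [e1, pow_succ (h : ℝ) K]
      linear_combination ((p : ℝ) ^ (K * h) * (p : ℝ) ^ K * ((3 * K * K) ^ K * (h : ℝ) ^ K) *
        (2 * K) ^ K) * hlamn
    rw [h2] at h1
    refine h1.trans ?_
    apply mul_le_mul_of_nonneg_left _ (by positivity)
    calc (n : ℝ) * ((h : ℝ) ^ (K + 1) * (p : ℝ) ^ (K * h)) ≤ n * n :=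
          mul_le_mul_of_nonneg_left hpow hn0.le
      _ = (n : ℝ) ^ 2 := (sq _).symm
      _ ≤ (n : ℝ) ^ K := pow_le_pow_right₀ hnr hK
  -- term (c)
  have hlog2 : Real.log 2 ≤ n * (h * Real.log p) := by
    have h1 : Real.log 2 ≤ Real.log p := Real.log_le_log (by norm_num) hpr
    have h2 : Real.log p ≤ h * Real.log p := by nlinarith
    have h3 : h * Real.log p ≤ n * (h * Real.log p) := by
      have : 0 ≤ h * Real.log p := by positivity
      nlinarith
    linarith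
  have hlogM : Real.log (((p : ℝ) ^ h) ^ n + 1) ≤ 2 * (n * (h * Real.log p)) := by
    have hP1 : (1 : ℝ) ≤ ((p : ℝ) ^ h) ^ n := one_le_pow₀ (one_le_pow₀ (by linarith))
    have h1 : Real.log (((p : ℝ) ^ h) ^ n + 1) ≤ Real.log (2 * ((p : ℝ) ^ h) ^ n) :=
      Real.log_le_log (by positivity) (by linarith)
    rw [Real.log_mul (by norm_num) (by positivity), Real.log_pow, Real.log_pow] at h1
    linarith
  rw [div_add' _ _ _ hlam0.ne', div_le_iff₀ hlam0]
  have hcc : Real.log 2 + (K + 1) * Real.log (((p : ℝ) ^ h) ^ n + 1) ≤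
      (2 * K + 3) * (n : ℝ) ^ K * lam := by
    have : (2 * K + 3) * (n : ℝ) ^ K * lam = (2 * K + 3) * (n * (h * Real.log p)) := by
      rw [← hlamn]; ring
    rw [this]
    have h1 : (K + 1) * Real.log (((p : ℝ) ^ h) ^ n + 1) ≤ (K + 1) * (2 * (n * (h * Real.log p))) :=
      mul_le_mul_of_nonneg_left hlogM (by positivity)
    nlinarith
  have hdd : ((K : ℝ) + 1) * lam ≤ (K + 1) * (n : ℝ) ^ K * lam := by
    apply mul_le_mul_of_nonneg_right _ hlam0.le
    nlinarith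
  have haa : Real.exp 1 * (2 * lam * (p : ℝ) ^ K) * W K (K * n) ≤
      2 * Real.exp 1 * (p : ℝ) ^ K * (2 * K) ^ K * (n : ℝ) ^ K * lam := by
    have : Real.exp 1 * (2 * lam * (p : ℝ) ^ K) * W K (K * n) ≤
        Real.exp 1 * (2 * lam * (p : ℝ) ^ K) * ((2 * K) ^ K * (n : ℝ) ^ K) :=
      mul_le_mul_of_nonneg_left hW1 (by positivity)
    refine this.trans (le_of_eq ?_)
    ring
  have hbb : Real.exp 1 * (4 * lam ^ 2 * (p : ℝ) ^ (K * (h + 1)) * W K (K + K * K * h)) *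
      W K (K * n) ≤ 4 * Real.exp 1 * Real.log p * (p : ℝ) ^ K * (3 * K * K) ^ K * (2 * K) ^ K *
        (n : ℝ) ^ K * lam := by
    have := mul_le_mul_of_nonneg_left hb (show 0 ≤ 4 * Real.exp 1 * lam by positivity)
    calc _ = 4 * Real.exp 1 * lam * (lam * (p : ℝ) ^ (K * (h + 1)) * W K (K + K * K * h) *
          W K (K * n)) := by ring
      _ ≤ _ := this
      _ = _ := by ring
  have e0 : Real.exp 1 * (2 * lam * (p : ℝ) ^ K +
        4 * lam ^ 2 * (p : ℝ) ^ (K * (h + 1)) * W K (K + K * K * h)) * W K (K * n) =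
      Real.exp 1 * (2 * lam * (p : ℝ) ^ K) * W K (K * n) +
      Real.exp 1 * (4 * lam ^ 2 * (p : ℝ) ^ (K * (h + 1)) * W K (K + K * K * h)) *
        W K (K * n) := by ring
  rw [e0]
  calc _ = Real.exp 1 * (2 * lam * (p : ℝ) ^ K) * W K (K * n) +
      Real.exp 1 * (4 * lam ^ 2 * (p : ℝ) ^ (K * (h + 1)) * W K (K + K * K * h)) *
        W K (K * n) + (Real.log 2 + (K + 1) * Real.log (((p : ℝ) ^ h) ^ n + 1)) +
        ((K : ℝ) + 1) * lam := by ring
    _ ≤ 2 * Real.exp 1 * (p : ℝ) ^ K * (2 * K) ^ K * (n : ℝ) ^ K * lam +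
        4 * Real.exp 1 * Real.log p * (p : ℝ) ^ K * (3 * K * K) ^ K * (2 * K) ^ K *
        (n : ℝ) ^ K * lam + (2 * K + 3) * (n : ℝ) ^ K * lam + (K + 1) * (n : ℝ) ^ K * lam := by
      gcongr
    _ = _ := by ring

/-- All the real analysis of the final step. `lam = log (q^n) / n^K` with `q = p^h`. -/
theorem param (K p : ℕ) (hK : 2 ≤ K) (hp : 2 ≤ p) :
    ∃ C : ℝ, 0 < C ∧ ∃ N₀ : ℕ, ∀ N : ℕ, N₀ ≤ N → ∃ h n : ℕ, 1 ≤ h ∧ 1 ≤ n ∧ N ≤ (p ^ h) ^ n ∧
      ∀ lam : ℝ, lam = n * Real.log ((p : ℝ) ^ h) / (n : ℝ) ^ K → 0 < lam ∧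
      ((Real.exp (1 / h)) ^ h *
            (2 * lam * (p : ℝ) ^ K +
              4 * lam ^ 2 * (p : ℝ) ^ (K * (h + 1)) * W K (K + K * K * h)) * W K (K * n) +
          Real.log 2 + (K + 1) * Real.log (((p : ℝ) ^ h) ^ n + 1)) / lam + (K + 1) ≤
        C * (Real.log N / Real.log (Real.log N)) ^ K := by
  obtain ⟨N0, hN0, hchoice⟩ := par_choice p (2 * K + 1) 1 hp (by omega)
  have hpr : (2 : ℝ) ≤ p := by exact_mod_cast hp
  have hlp : 0 < Real.log p := Real.log_pos (by linarith)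
  set C0 : ℝ := (2 * Real.exp 1 * (p : ℝ) ^ K * (2 * K) ^ K +
          4 * Real.exp 1 * Real.log p * (p : ℝ) ^ K * (3 * K * K) ^ K * (2 * K) ^ K +
          (2 * K + 3) + (K + 1)) with hC0
  have hC0pos : 0 < C0 := by
    have := Real.exp_pos 1
    rw [hC0]
    positivity
  refine ⟨C0 * (8 * ((2 * K + 1 : ℕ) : ℝ)) ^ K, by positivity, N0, fun N hN => ?_⟩
  obtain ⟨n, h, hn1, hpn, hNq, hnle⟩ := hchoice N hN
  have hh1 : 1 ≤ h := by
    rcases Nat.eq_zero_or_pos h with h0 | h0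
    · rw [h0, pow_zero, one_pow] at hNq
      omega
    · exact h0
  refine ⟨h, n, hh1, hn1, hNq, fun lam hlam => ?_⟩
  obtain ⟨hl0, hb⟩ := par_bound K p h n hK hp hh1 hn1 hpn lam hlam
  refine ⟨hl0, hb.trans ?_⟩
  rw [← hC0]
  have h1 := pow_le_pow_left₀ (Nat.cast_nonneg n) hnle K
  rw [mul_pow] at h1
  calc C0 * (n : ℝ) ^ K ≤ C0 * ((8 * ((2 * K + 1 : ℕ) : ℝ)) ^ K *
        (Real.log N / Real.log (Real.log N)) ^ K) := mul_le_mul_of_nonneg_left h1 hC0pos.le
    _ = _ := by ring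

end DiscTower
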