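import Pool.Agent.Work.DiscTower.Iter
import Pool.Agent.Work.DiscTower.Good
import Pool.Agent.Work.DiscTower.GenN
import Pool.Agent.Work.DiscTower.Param

/-! T17: the theorem. -/

namespace DiscTower
open Finset

/-- trivial bound: the discrepancy function of `N` points is at most `N` -/
theorem final_trivial {k N : ℕ} (u : Fin N → Fin k → ℝ) (α : Fin k → ℝ)
    (hα : ∀ s, 0 ≤ α s ∧ α s < 1) :
    |((univ.filter (fun i : Fin N => ∀ s, u i s ≤ α s)).card : ℝ) - N * ∏ s, α s| ≤ N := by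
  have h1 : ((univ.filter (fun i : Fin N => ∀ s, u i s ≤ α s)).card : ℝ) ≤ N := by
    have : (univ.filter (fun i : Fin N => ∀ s, u i s ≤ α s)).card ≤ N := by
      calc _ ≤ (univ : Finset (Fin N)).card := card_filter_le _ _
        _ = N := by simp
    exact_mod_cast this
  have h2 : (0 : ℝ) ≤ ((univ.filter (fun i : Fin N => ∀ s, u i s ≤ α s)).card : ℝ) :=
    Nat.cast_nonneg _
  have h3 : 0 ≤ ∏ s, α s := prod_nonneg (fun s _ => (hα s).1)
  have h4 : ∏ s, α s ≤ 1 := prod_le_one (fun s _ => (hα s).1) (fun s _ => (hα s).2.le)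
  have hN : (0 : ℝ) ≤ N := Nat.cast_nonneg _
  have h5 : 0 ≤ (N : ℝ) * ∏ s, α s := mul_nonneg hN h3
  have h6 : (N : ℝ) * ∏ s, α s ≤ N := by
    calc (N : ℝ) * ∏ s, α s ≤ N * 1 := mul_le_mul_of_nonneg_left h4 hN
      _ = N := mul_one _
  rw [abs_le]
  constructor <;> linarith

theorem final_log_pos {N : ℕ} (hN : 3 ≤ N) :
    1 < Real.log N ∧ 0 < Real.log (Real.log N) := by
  have h3 : (3 : ℝ) ≤ N := by exact_mod_cast hN
  have h1 : 1 < Real.log N := by
    rw [Real.lt_log_iff_exp_lt (by linarith)]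
    exact lt_of_lt_of_le Real.exp_one_lt_three h3
  exact ⟨h1, Real.log_pos h1⟩

theorem final_ratio {N : ℕ} (hN : 3 ≤ N) : 1 ≤ Real.log N / Real.log (Real.log N) := by
  obtain ⟨h1, h2⟩ := final_log_pos hN
  rw [le_div_iff₀ h2, one_mul]
  have := Real.log_le_sub_one_of_pos (show 0 < Real.log N by linarith)
  linarith

theorem upper (k : ℕ) (hk : 3 ≤ k) : ∃ C : ℝ, 0 < C ∧ ∀ N : ℕ, 3 ≤ N →
    ∃ u : Fin N → Fin k → ℝ, (∀ i s, 0 ≤ u i s ∧ u i s < 1) ∧
      ∀ α : Fin k → ℝ, (∀ s, 0 ≤ α s ∧ α s < 1) →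
        |((univ.filter (fun i : Fin N => ∀ s, u i s ≤ α s)).card : ℝ) - N * ∏ s, α s| ≤
          C * (Real.log N / Real.log (Real.log N)) ^ (k - 1) := by
  obtain ⟨K, rfl⟩ : ∃ K, k = K + 1 := ⟨k - 1, by omega⟩
  have hK : 2 ≤ K := by omega
  obtain ⟨p, hpK, hp⟩ := Nat.exists_infinite_primes (K + 1)
  have : Fact p.Prime := ⟨hp⟩
  obtain ⟨C, hC, N₀, hN₀⟩ := param K p hK hp.two_le
  refine ⟨max C N₀, lt_max_of_lt_left hC, fun N hN => ?_⟩
  have hr := final_ratio hN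
  rw [Nat.add_sub_cancel]
  have hrK : 1 ≤ (Real.log N / Real.log (Real.log N)) ^ K := one_le_pow₀ hr
  by_cases hNN : N₀ ≤ N
  · obtain ⟨h, n, hh, hn, hNq, hlam⟩ := hN₀ N hNN
    obtain ⟨hlam0, hbound⟩ := hlam _ rfl
    set lam : ℝ := n * Real.log ((p : ℝ) ^ h) / (n : ℝ) ^ K with hlamdef
    have hhR : (0 : ℝ) < h := by exact_mod_cast hh
    have hdel : 0 ≤ Real.exp (1 / (h : ℝ)) - 1 := by
      have := Real.add_one_le_exp (1 / (h : ℝ))
      have : 0 ≤ 1 / (h : ℝ) := by positivity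
      linarith
    have hmgf := mgf_iter K n p (by omega) hpK lam hlam0.le (K + K * K * h)
      (Real.exp (1 / (h : ℝ)) - 1) hdel
      (fun L hL => by
        have := W_le_V K h L (by omega) hh hL
        simpa using this) h
    have hA : 0 ≤ (1 + (Real.exp (1 / (h : ℝ)) - 1)) ^ h * (2 * lam * (p : ℝ) ^ K +
        4 * lam ^ 2 * (p : ℝ) ^ (K * (h + 1)) * W K (K + K * K * h)) := by
      have : 0 ≤ 1 + (Real.exp (1 / (h : ℝ)) - 1) := by linarith
      positivity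
    obtain ⟨I, hI, x, hx, h0, hE⟩ := good_set K n (p ^ h) (Nat.one_le_pow _ _ hp.pos) lam _ _
      hlam0 hA hmgf
    obtain ⟨u, hu, hD⟩ := gen_N K ((p ^ h) ^ n) N (by omega) hNq I x hx h0 _
      (fun a ha => by simpa only [Nat.cast_pow] using hE a ha)
    refine ⟨u, hu, fun α hα => (hD α hα).trans ?_⟩
    have e1 : (1 + (Real.exp (1 / (h : ℝ)) - 1)) = Real.exp (1 / h) := by ring
    rw [e1]
    refine hbound.trans ?_
    exact mul_le_mul_of_nonneg_right (le_max_left _ _) (by linarith)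
  · refine ⟨fun _ _ => 0, fun _ _ => ⟨le_rfl, zero_lt_one⟩, fun α hα => ?_⟩
    refine (final_trivial _ α hα).trans ?_
    have h1 : (N : ℝ) ≤ N₀ := by exact_mod_cast (not_le.mp hNN).le
    calc (N : ℝ) ≤ max C N₀ := h1.trans (le_max_right _ _)
      _ = max C N₀ * 1 := (mul_one _).symm
      _ ≤ _ := mul_le_mul_of_nonneg_left hrK (le_trans hC.le (le_max_left _ _))

/-- the conjectured lower bound `≫ (log N)^(k-1)` is false for every `k ≥ 3` -/
theorem conj_false (k : ℕ) (hk : 3 ≤ k) : ¬ ∃ c : ℝ, 0 < c ∧ ∀ N : ℕ, 2 ≤ N →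
    ∀ u : Fin N → Fin k → ℝ, (∀ i s, 0 ≤ u i s ∧ u i s < 1) →
      ∃ α : Fin k → ℝ, (∀ s, 0 ≤ α s ∧ α s < 1) ∧
        c * (Real.log N) ^ (k - 1) ≤
          |((univ.filter (fun i : Fin N => ∀ s, u i s ≤ α s)).card : ℝ) - N * ∏ s, α s| := by
  rintro ⟨c, hc, hN⟩
  obtain ⟨C, hC, hup⟩ := upper k hk
  have htend : Filter.Tendsto (fun N : ℕ => Real.log (Real.log (N : ℝ))) Filter.atTop
      Filter.atTop :=
    Real.tendsto_log_atTop.comp (Real.tendsto_log_atTop.comp tendsto_natCast_atTop_atTop)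
  obtain ⟨N, hN3, hNlarge⟩ := ((Filter.eventually_ge_atTop 3).and
    (htend.eventually_gt_atTop (max 1 (C / c)))).exists
  obtain ⟨u, hu, hD⟩ := hup N hN3
  obtain ⟨α, hα, hlow⟩ := hN N (by omega) u hu
  have hle := hlow.trans (hD α hα)
  obtain ⟨h1, h2⟩ := final_log_pos hN3
  set L := Real.log (N : ℝ) with hL
  set ℓ := Real.log L with hℓ
  have hLpos : 0 < L ^ (k - 1) := by positivity
  have hℓpos : 0 < ℓ ^ (k - 1) := by positivity
  rw [div_pow, mul_div_assoc', le_div_iff₀ hℓpos] at hle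
  have h3 : c * ℓ ^ (k - 1) ≤ C := by
    have : (c * ℓ ^ (k - 1)) * L ^ (k - 1) ≤ C * L ^ (k - 1) := by linarith
    exact le_of_mul_le_mul_right this hLpos
  have h4 : 1 < ℓ := lt_of_le_of_lt (le_max_left _ _) hNlarge
  have h5 : C / c < ℓ := lt_of_le_of_lt (le_max_right _ _) hNlarge
  have h6 : ℓ ≤ ℓ ^ (k - 1) := le_self_pow₀ h4.le (by omega)
  rw [div_lt_iff₀ hc] at h5
  nlinarith

end DiscTower
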