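import Pool.Agent.Work.DiscTower.Step

/-! T12: iteration. -/

namespace DiscTower
open Finset

theorem MGF.mono {K n q : ℕ} {lam A B A' B' : ℝ} (h : MGF K n q lam A B) (hA : A ≤ A')
    (hB : B ≤ B') : MGF K n q lam A' B' := by
  obtain ⟨Ω, I, i1, i2, i3, x, hx, hu, hm⟩ := h
  refine ⟨Ω, I, i1, i2, i3, x, hx, hu, ?_⟩
  intro b e h1 h2 σ hσ
  refine (hm b e h1 h2 σ hσ).trans ?_
  apply mul_le_mul_of_nonneg_left _ (by positivity)
  apply Real.exp_le_exp.mpr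
  apply min_le_min
  · exact mul_le_mul_of_nonneg_right hA (by positivity)
  · exact mul_le_mul_of_nonneg_right hB (by positivity)

theorem mgf_iter (K n p : ℕ) [Fact p.Prime] (hK : 1 ≤ K) (hp : K + 1 ≤ p) (lam : ℝ)
    (hlam : 0 ≤ lam) (ℓ : ℕ) (del : ℝ) (hdel : 0 ≤ del)
    (hℓ : ∀ L, ℓ ≤ L → (W K L : ℝ) ≤ (1 + del) * V K L) (h : ℕ) :
    MGF K n (p ^ h) lam
      ((1 + del) ^ h * (2 * lam * (p : ℝ) ^ K + 4 * lam ^ 2 * (p : ℝ) ^ (K * (h + 1)) * W K ℓ))
      (2 * lam ^ 2 * (p : ℝ) ^ (K * (h + 1))) := by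
  have hp1 : 1 < p := (Fact.out : p.Prime).one_lt
  have hpR : (2 : ℝ) ≤ p := by exact_mod_cast hp1
  have hp0 : (0 : ℝ) < p := by linarith
  have hd1 : (1 : ℝ) ≤ 1 + del := by linarith
  set w : ℝ := (W K ℓ : ℝ) with hw
  have hw0 : 0 ≤ w := by positivity
  have key : MGF K n (p ^ h) lam
      ((1 + del) ^ h * (2 * lam * (p : ℝ) ^ K * (1 - ((p : ℝ) ^ h)⁻¹)
        + 4 * lam ^ 2 * (p : ℝ) ^ (K * (h + 1)) * w))
      (2 * lam ^ 2 * (p : ℝ) ^ (K * (h + 1)) * (1 - ((p : ℝ) ^ h)⁻¹)) := by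
    induction h with
    | zero =>
      refine (mgf_zero K n lam).mono ?_ ?_
      · simp; positivity
      · simp
    | succ h ih =>
      have hi0 : (0 : ℝ) < ((p : ℝ) ^ h)⁻¹ := by positivity
      have hi1 : ((p : ℝ) ^ h)⁻¹ ≤ 1 := inv_le_one_of_one_le₀ (one_le_pow₀ (by linarith))
      have hi2 : 2 * ((p : ℝ) ^ (h + 1))⁻¹ ≤ ((p : ℝ) ^ h)⁻¹ := by
        rw [pow_succ, mul_inv]
        have : ((p : ℝ))⁻¹ ≤ 1 / 2 := by
          rw [inv_le_comm₀ hp0 (by norm_num)]; norm_num; linarith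
        nlinarith
      have hA : 0 ≤ (1 + del) ^ h * (2 * lam * (p : ℝ) ^ K * (1 - ((p : ℝ) ^ h)⁻¹)
        + 4 * lam ^ 2 * (p : ℝ) ^ (K * (h + 1)) * w) := by
        have : 0 ≤ 1 - ((p : ℝ) ^ h)⁻¹ := by linarith
        positivity
      have hB : 0 ≤ 2 * lam ^ 2 * (p : ℝ) ^ (K * (h + 1)) * (1 - ((p : ℝ) ^ h)⁻¹) := by
        have : 0 ≤ 1 - ((p : ℝ) ^ h)⁻¹ := by linarith
        positivity
      have st := mgf_step K n (p ^ h) p hK hp (Nat.one_le_pow _ _ (by omega)) lam _ _ hlam hA hB ℓ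
        del hdel hℓ ih
      rw [pow_succ p h]
      refine st.mono ?_ ?_
      · -- the linear coefficient
        have hdh : (1 : ℝ) ≤ (1 + del) ^ (h + 1) := one_le_pow₀ hd1
        have e1 : (p : ℝ) ^ K * (2 * lam ^ 2 * (p : ℝ) ^ (K * (h + 1)) * (1 - ((p : ℝ) ^ h)⁻¹)) * w
            ≤ 2 * lam ^ 2 * (p : ℝ) ^ (K * (h + 1 + 1)) * w := by
          have : (p : ℝ) ^ (K * (h + 1 + 1)) = (p : ℝ) ^ K * (p : ℝ) ^ (K * (h + 1)) := by
            rw [← pow_add]; ring_nf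
          rw [this]
          have h0 : 0 ≤ lam ^ 2 * ((p : ℝ) ^ K * (p : ℝ) ^ (K * (h + 1))) * w := by positivity
          nlinarith
        have e2 : lam * ((p : ℝ) ^ K / ((p ^ h : ℕ) : ℝ)) = lam * (p : ℝ) ^ K * ((p : ℝ) ^ h)⁻¹ := by
          push_cast; rw [div_eq_mul_inv]; ring
        have e3 : 4 * lam ^ 2 * (p : ℝ) ^ (K * (h + 1)) * w
            ≤ 2 * lam ^ 2 * (p : ℝ) ^ (K * (h + 1 + 1)) * w := by
          have h1 : (p : ℝ) ^ (K * (h + 1 + 1)) = (p : ℝ) ^ K * (p : ℝ) ^ (K * (h + 1)) := by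
            rw [← pow_add]; ring_nf
          have h2 : (2 : ℝ) ≤ (p : ℝ) ^ K := by
            calc (2 : ℝ) ≤ (p : ℝ) ^ 1 := by simpa using hpR
              _ ≤ (p : ℝ) ^ K := pow_le_pow_right₀ (by linarith) hK
          rw [h1]
          have h0 : 0 ≤ lam ^ 2 * (p : ℝ) ^ (K * (h + 1)) * w := by positivity
          nlinarith
        rw [e2]
        set D : ℝ := (1 + del) ^ (h + 1) with hD
        set T : ℝ := 2 * lam ^ 2 * (p : ℝ) ^ (K * (h + 1 + 1)) * w with hT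
        have hT0 : 0 ≤ T := by positivity
        set c : ℝ := lam * (p : ℝ) ^ K with hc
        have hc0 : 0 ≤ c := by positivity
        set i0 : ℝ := ((p : ℝ) ^ h)⁻¹
        set i1 : ℝ := ((p : ℝ) ^ (h + 1))⁻¹
        calc (1 + del) * ((1 + del) ^ h * (2 * lam * (p : ℝ) ^ K * (1 - i0)
              + 4 * lam ^ 2 * (p : ℝ) ^ (K * (h + 1)) * w))
              + (p : ℝ) ^ K * (2 * lam ^ 2 * (p : ℝ) ^ (K * (h + 1)) * (1 - i0)) * w + c * i0
            ≤ D * (2 * c * (1 - i0) + T) + T + c * i0 := by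
              have : (1 + del) * ((1 + del) ^ h * (2 * lam * (p : ℝ) ^ K * (1 - i0)
                  + 4 * lam ^ 2 * (p : ℝ) ^ (K * (h + 1)) * w))
                  ≤ D * (2 * c * (1 - i0) + T) := by
                rw [← mul_assoc, ← pow_succ']
                apply mul_le_mul_of_nonneg_left _ (by positivity)
                have : 2 * lam * (p : ℝ) ^ K * (1 - i0) = 2 * c * (1 - i0) := by rw [hc]; ring
                rw [this]; linarith
              linarith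
          _ ≤ D * (2 * c * (1 - i0) + T) + D * T + D * (c * i0) := by
              have : 0 ≤ c * i0 := by positivity
              nlinarith
          _ = D * (c * (2 - i0) + 2 * T) := by ring
          _ ≤ D * (2 * lam * (p : ℝ) ^ K * (1 - i1)
              + 4 * lam ^ 2 * (p : ℝ) ^ (K * (h + 1 + 1)) * w) := by
              apply mul_le_mul_of_nonneg_left _ (by positivity)
              have h1 : c * (2 - i0) ≤ 2 * lam * (p : ℝ) ^ K * (1 - i1) := by
                have : 2 * lam * (p : ℝ) ^ K * (1 - i1) = c * (2 - 2 * i1) := by rw [hc]; ring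
                rw [this]
                apply mul_le_mul_of_nonneg_left _ hc0
                linarith
              have h2 : 2 * T = 4 * lam ^ 2 * (p : ℝ) ^ (K * (h + 1 + 1)) * w := by rw [hT]; ring
              linarith
      · -- the quadratic coefficient
        have h1 : (p : ℝ) ^ (K * (h + 1 + 1)) = (p : ℝ) ^ K * (p : ℝ) ^ (K * (h + 1)) := by
          rw [← pow_add]; ring_nf
        have h2 : (lam * ((p : ℝ) ^ K / ((p ^ h : ℕ) : ℝ))) ^ 2
            ≤ lam ^ 2 * (p : ℝ) ^ (K * (h + 1 + 1)) * ((p : ℝ) ^ h)⁻¹ := by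
          push_cast
          rw [div_eq_mul_inv, mul_pow, mul_pow, ← pow_mul, sq ((p : ℝ) ^ h)⁻¹]
          have h3 : (p : ℝ) ^ (K * 2) ≤ (p : ℝ) ^ (K * (h + 1 + 1)) :=
            pow_le_pow_right₀ (by linarith) (Nat.mul_le_mul_left _ (by omega))
          calc lam ^ 2 * ((p : ℝ) ^ (K * 2) * (((p : ℝ) ^ h)⁻¹ * ((p : ℝ) ^ h)⁻¹))
              ≤ lam ^ 2 * ((p : ℝ) ^ (K * (h + 1 + 1)) * (1 * ((p : ℝ) ^ h)⁻¹)) := by
                gcongr
            _ = _ := by ring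
        calc (p : ℝ) ^ K * (2 * lam ^ 2 * (p : ℝ) ^ (K * (h + 1)) * (1 - ((p : ℝ) ^ h)⁻¹))
              + (lam * ((p : ℝ) ^ K / ((p ^ h : ℕ) : ℝ))) ^ 2
            ≤ 2 * lam ^ 2 * (p : ℝ) ^ (K * (h + 1 + 1)) * (1 - ((p : ℝ) ^ h)⁻¹)
              + lam ^ 2 * (p : ℝ) ^ (K * (h + 1 + 1)) * ((p : ℝ) ^ h)⁻¹ := by
              rw [h1] at h2 ⊢; linarith
          _ ≤ 2 * lam ^ 2 * (p : ℝ) ^ (K * (h + 1 + 1)) * (1 - ((p : ℝ) ^ (h + 1))⁻¹) := by
              have h0 : 0 ≤ lam ^ 2 * (p : ℝ) ^ (K * (h + 1 + 1)) := by positivity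
              nlinarith
  refine key.mono ?_ ?_
  · have hi0 : (0 : ℝ) < ((p : ℝ) ^ h)⁻¹ := by positivity
    apply mul_le_mul_of_nonneg_left _ (by positivity)
    have : 0 ≤ 2 * lam * (p : ℝ) ^ K := by positivity
    nlinarith
  · have hi0 : (0 : ℝ) < ((p : ℝ) ^ h)⁻¹ := by positivity
    have : 0 ≤ 2 * lam ^ 2 * (p : ℝ) ^ (K * (h + 1)) := by positivity
    nlinarith

end DiscTower
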