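import Pool.Agent.Work.DiscTower.Defs

/-! T5: consequences of the net property. -/

namespace DiscTower
open Finset

theorem Net.add {K n p : ℕ} {C : Type} {l : C → Fin (K + 1) → ℕ → ZMod p} (h : Net K n p l)
    (g : Fin (K + 1) → ℕ → ZMod p) : Net K n p (fun c s t => l c s t + g s t) := by
  intro d hd
  have h1 := h d hd
  have h2 : Function.Bijective (fun (u : (s : Fin (K + 1)) → Fin (d s) → ZMod p) s t =>
      u s t + g s t) := by
    constructor
    · intro u v huv
      funext s t
      have := congrFun (congrFun huv s) t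
      exact add_right_cancel this
    · intro v
      refine ⟨fun s t => v s t - g s t, ?_⟩
      funext s t
      simp
  exact h2.comp h1

theorem Net.card {K n p : ℕ} [NeZero p] {C : Type} [Fintype C]
    {l : C → Fin (K + 1) → ℕ → ZMod p} (h : Net K n p l) : Fintype.card C = p ^ n := by
  classical
  have hd : ∑ s, (Pi.single (0 : Fin (K + 1)) n : Fin (K + 1) → ℕ) s = n := by
    rw [Finset.sum_pi_single']
    simp
  have h1 := Fintype.card_of_bijective (h _ hd)
  rw [h1]
  simp only [Fintype.card_pi, Finset.prod_const, Finset.card_univ, Fintype.card_fin, ZMod.card,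
    Finset.prod_pow_eq_pow_sum, hd]

theorem net_sum {K n p : ℕ} [NeZero p] {C : Type} [Fintype C]
    {l : C → Fin (K + 1) → ℕ → ZMod p} (h : Net K n p l) (d : Fin (K + 1) → ℕ)
    (hd : ∑ s, d s = n) (f : Fin (K + 1) → (ℕ → ZMod p) → ℝ)
    (hf : ∀ s l l', (∀ t < d s, l t = l' t) → f s l = f s l') :
    ∑ c, ∏ s, f s (l c s) = ∏ s, ∑ u : Fin (d s) → ZMod p, f s (ext u) := by
  classical
  rw [Finset.prod_univ_sum, Fintype.piFinset_univ]
  rw [← (h d hd).sum_comp (fun u : (s : Fin (K + 1)) → Fin (d s) → ZMod p =>
    ∏ s, f s (ext (u s)))]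
  refine Finset.sum_congr rfl (fun c _ => Finset.prod_congr rfl (fun s _ => ?_))
  refine hf s _ _ (fun t ht => ?_)
  simp only [ext, ht, dif_pos]

theorem exists_le_sum_eq {ι : Type} [Fintype ι] (n : ℕ) (d : ι → ℕ) (h : n ≤ ∑ s, d s) :
    ∃ d' : ι → ℕ, (∀ s, d' s ≤ d s) ∧ ∑ s, d' s = n := by
  classical
  obtain ⟨m, hm⟩ : ∃ m, ∑ s, d s - n = m := ⟨_, rfl⟩
  induction m generalizing d with
  | zero => exact ⟨d, fun _ => le_rfl, by omega⟩
  | succ m ih =>
    have hpos : ∃ s, 0 < d s := by
      by_contra hcon
      push Not at hcon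
      have : ∑ s, d s = 0 := Finset.sum_eq_zero (fun s _ => by have := hcon s; omega)
      omega
    obtain ⟨s0, hs0⟩ := hpos
    have hsum : ∑ s, Function.update d s0 (d s0 - 1) s + 1 = ∑ s, d s := by
      rw [Finset.sum_update_of_mem (mem_univ s0),
        ← Finset.add_sum_erase univ d (mem_univ s0), Finset.sdiff_singleton_eq_erase]
      omega
    obtain ⟨d', h1, h2⟩ := ih (Function.update d s0 (d s0 - 1)) (by omega) (by omega)
    refine ⟨d', fun s => ?_, h2⟩
    have := h1 s
    by_cases hs : s = s0
    · subst hs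
      rw [Function.update_self] at this
      omega
    · rwa [Function.update_of_ne hs] at this

theorem net_count {K n p : ℕ} [NeZero p] {C : Type} [Fintype C]
    {l : C → Fin (K + 1) → ℕ → ZMod p} (h : Net K n p l) (d : Fin (K + 1) → ℕ) (m : ℕ)
    (hd : n ≤ ∑ s, d s + m) (target : Fin (K + 1) → ℕ → ZMod p) [DecidablePred
      (fun c : C => ∀ s, ∀ t < d s, l c s t = target s t)] :
    (univ.filter (fun c : C => ∀ s, ∀ t < d s, l c s t = target s t)).card ≤ p ^ m := by
  classical
  by_cases hn : n ≤ ∑ s, d s
  · obtain ⟨d', hd', hsum⟩ := exists_le_sum_eq n d hn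
    refine le_trans ?_ (Nat.one_le_pow _ _ (Nat.pos_of_ne_zero (NeZero.ne p)))
    rw [Finset.card_le_one]
    intro a ha b hb
    simp only [mem_filter, mem_univ, true_and] at ha hb
    refine (h d' hsum).1 ?_
    funext s t
    show l a s t = l b s t
    rw [ha s t (lt_of_lt_of_le t.2 (hd' s)), hb s t (lt_of_lt_of_le t.2 (hd' s))]
  · push Not at hn
    let r := n - ∑ s, d s
    let d' : Fin (K + 1) → ℕ := Function.update d 0 (d 0 + r)
    have hsum : ∑ s, d' s = n := by
      simp only [d']
      rw [Finset.sum_update_of_mem (mem_univ (0 : Fin (K + 1))), Finset.sdiff_singleton_eq_erase]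
      have := Finset.add_sum_erase univ d (mem_univ (0 : Fin (K + 1)))
      omega
    have hinj : Set.InjOn (fun (c : C) (t : Fin r) => l c 0 (d 0 + t))
        (univ.filter (fun c : C => ∀ s, ∀ t < d s, l c s t = target s t) : Finset C) := by
      intro a ha b hb hab
      simp only [coe_filter, mem_univ, true_and, Set.mem_ofPred_eq] at ha hb
      refine (h d' hsum).1 ?_
      funext s t
      show l a s t = l b s t
      by_cases ht : (t : ℕ) < d s
      · rw [ha s t ht, hb s t ht]
      · have hs : s = 0 := by
          by_contra hs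
          have h1 := t.2
          simp only [d', Function.update_of_ne hs] at h1
          exact ht h1
        subst hs
        have h1 := t.2
        simp only [d', Function.update_self] at h1
        have h2 := congrFun hab ⟨t - d 0, by omega⟩
        simp only at h2
        have h3 : d 0 + ((t : ℕ) - d 0) = t := by omega
        rw [h3] at h2
        exact h2
    have hc := Finset.card_le_card_of_injOn (t := univ) _ (fun c _ => mem_univ _) hinj
    rw [Finset.card_univ] at hc
    refine hc.trans ?_
    simp only [Fintype.card_pi, Finset.prod_const, Finset.card_univ, Fintype.card_fin, ZMod.card]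
    exact Nat.pow_le_pow_right (Nat.pos_of_ne_zero (NeZero.ne p)) (by omega)

end DiscTower
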