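import Pool.Agent.Work.DiscTower.Tuples

/-! T10: elementary inequalities (Hoeffding type lemma, the sum over tiles). -/

namespace DiscTower
open Finset

theorem exp_mean_le {G : Type} [Fintype G] (X : G → ℝ) (M : ℝ) (hM : ∀ g, |X g| ≤ M)
    (h0 : ∑ g, X g = 0) :
    ∑ g, Real.exp (X g) ≤ Fintype.card G * Real.exp (min M (M ^ 2)) := by
  rcases isEmpty_or_nonempty G with hG | ⟨⟨g0⟩⟩
  · simp
  have hM0 : 0 ≤ M := (abs_nonneg _).trans (hM g0)
  have hcard : (Fintype.card G : ℝ) = ∑ _g : G, (1 : ℝ) := by simp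
  rcases le_or_gt M 1 with h1 | h1
  · have hmin : min M (M ^ 2) = M ^ 2 := min_eq_right (by nlinarith)
    rw [hmin]
    have hb : ∀ g, Real.exp (X g) ≤ 1 + X g + M ^ 2 := by
      intro g
      have h := Real.abs_exp_sub_one_sub_id_le ((hM g).trans h1)
      have h2 := (abs_le.mp h).2
      have h3 : X g ^ 2 ≤ M ^ 2 := by
        rw [← sq_abs]
        exact pow_le_pow_left₀ (abs_nonneg _) (hM g) 2
      linarith
    calc ∑ g, Real.exp (X g) ≤ ∑ g, (1 + X g + M ^ 2) := sum_le_sum fun g _ => hb g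
      _ = (Fintype.card G : ℝ) * (1 + M ^ 2) := by
          rw [sum_add_distrib, sum_add_distrib, h0]
          simp
          ring
      _ ≤ (Fintype.card G : ℝ) * Real.exp (M ^ 2) := by
          have := Real.add_one_le_exp (M ^ 2)
          apply mul_le_mul_of_nonneg_left _ (Nat.cast_nonneg _)
          linarith
  · have hmin : min M (M ^ 2) = M := min_eq_left (by nlinarith)
    rw [hmin]
    calc ∑ g, Real.exp (X g) ≤ ∑ _g : G, Real.exp M :=
          sum_le_sum fun g _ => Real.exp_le_exp.mpr ((le_abs_self _).trans (hM g))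
      _ = (Fintype.card G : ℝ) * Real.exp M := by simp

theorem num_W_mono (K : ℕ) {L L' : ℕ} (h : L ≤ L') : W K L ≤ W K L' := by
  unfold W
  exact Nat.choose_le_choose K (by omega)

theorem V_le_W (K L : ℕ) : V K L ≤ W K L := by
  unfold V W
  exact Nat.choose_le_choose K (by omega)

theorem sum_F_le {C : Type} [Fintype C] (K : ℕ) (L : C → ℕ) (L0 ℓ : ℕ) (P : ℝ) (del A B : ℝ)
    (hP : 0 ≤ P) (hdel : 0 ≤ del) (hA : 0 ≤ A) (hB : 0 ≤ B) (hle : ∀ c, L c ≤ L0)
    (hW : ∑ c, (W K (L c) : ℝ) ≤ P * W K L0) (hV : ∑ c, (V K (L c) : ℝ) ≤ V K L0)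
    (hℓ : ∀ L, ℓ ≤ L → (W K L : ℝ) ≤ (1 + del) * V K L) (hVW : ∀ L, V K L ≤ W K L) :
    ∑ c, min (A * W K (L c)) (B * (W K (L c) : ℝ) ^ 2) ≤
      min (((1 + del) * A + P * B * W K ℓ) * W K L0) (P * B * (W K L0 : ℝ) ^ 2) := by
  have hWn : ∀ j : ℕ, (0 : ℝ) ≤ W K j := fun j => Nat.cast_nonneg _
  have hVn : ∀ j : ℕ, (0 : ℝ) ≤ V K j := fun j => Nat.cast_nonneg _
  apply le_min
  · have hc : ∀ c, min (A * W K (L c)) (B * (W K (L c) : ℝ) ^ 2) ≤
        (1 + del) * A * V K (L c) + B * W K ℓ * W K (L c) := by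
      intro c
      rcases le_or_gt ℓ (L c) with h | h
      · refine (min_le_left _ _).trans ?_
        have h1 := mul_le_mul_of_nonneg_left (hℓ (L c) h) hA
        have h2 : 0 ≤ B * W K ℓ * W K (L c) := mul_nonneg (mul_nonneg hB (hWn _)) (hWn _)
        nlinarith
      · refine (min_le_right _ _).trans ?_
        have h1 : (W K (L c) : ℝ) ≤ W K ℓ := by exact_mod_cast num_W_mono K h.le
        have h2 : 0 ≤ (1 + del) * A * V K (L c) :=
          mul_nonneg (mul_nonneg (by linarith) hA) (hVn _)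
        have h3 : B * (W K (L c) : ℝ) ^ 2 ≤ B * W K ℓ * W K (L c) := by
          have : (W K (L c) : ℝ) ^ 2 ≤ W K ℓ * W K (L c) := by
            rw [sq]
            exact mul_le_mul_of_nonneg_right h1 (hWn _)
          calc B * (W K (L c) : ℝ) ^ 2 ≤ B * (W K ℓ * W K (L c)) :=
                mul_le_mul_of_nonneg_left this hB
            _ = B * W K ℓ * W K (L c) := by ring
        linarith
    calc ∑ c, min (A * W K (L c)) (B * (W K (L c) : ℝ) ^ 2)
        ≤ ∑ c, ((1 + del) * A * V K (L c) + B * W K ℓ * W K (L c)) :=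
          sum_le_sum fun c _ => hc c
      _ = (1 + del) * A * ∑ c, (V K (L c) : ℝ) + B * W K ℓ * ∑ c, (W K (L c) : ℝ) := by
          rw [sum_add_distrib, mul_sum, mul_sum]
      _ ≤ (1 + del) * A * W K L0 + B * W K ℓ * (P * W K L0) := by
          have h4 : ∑ c, (V K (L c) : ℝ) ≤ W K L0 := hV.trans (by exact_mod_cast hVW L0)
          exact add_le_add (mul_le_mul_of_nonneg_left h4 (mul_nonneg (by linarith) hA))
            (mul_le_mul_of_nonneg_left hW (mul_nonneg hB (hWn _)))
      _ = ((1 + del) * A + P * B * W K ℓ) * W K L0 := by ring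
  · calc ∑ c, min (A * W K (L c)) (B * (W K (L c) : ℝ) ^ 2)
        ≤ ∑ c, B * W K L0 * W K (L c) := by
          refine sum_le_sum fun c _ => (min_le_right _ _).trans ?_
          have h1 : (W K (L c) : ℝ) ≤ W K L0 := by exact_mod_cast num_W_mono K (hle c)
          have : (W K (L c) : ℝ) ^ 2 ≤ W K L0 * W K (L c) := by
            rw [sq]
            exact mul_le_mul_of_nonneg_right h1 (hWn _)
          calc B * (W K (L c) : ℝ) ^ 2 ≤ B * (W K L0 * W K (L c)) :=
                mul_le_mul_of_nonneg_left this hB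
            _ = B * W K L0 * W K (L c) := by ring
      _ = B * W K L0 * ∑ c, (W K (L c) : ℝ) := by rw [mul_sum]
      _ ≤ B * W K L0 * (P * W K L0) :=
          mul_le_mul_of_nonneg_left hW (mul_nonneg hB (hWn _))
      _ = P * B * (W K L0 : ℝ) ^ 2 := by ring

end DiscTower
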