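import Pool.Agent.Work.DiscTower.Defs

/-! T1: the Reed-Solomon net. `R c s t` = coefficient of `(X - s)^t` in `∑ c_i X^i`
(`Polynomial.taylor`). Injective on every prefix system of total length `n` (CRT/degree). -/

namespace DiscTower
open Finset Polynomial

/-- The polynomial with coefficient vector f. -/
noncomputable def rsPol (q m : ℕ) (f : Fin m → ZMod q) : (ZMod q)[X] :=
  ∑ j : Fin m, C (f j) * X ^ (j : ℕ)

/-- The s-th Taylor coefficient at the point i. -/
noncomputable def rsZ (q m k : ℕ) (f : Fin m → ZMod q) (i : Fin k) (s : ℕ) : ZMod q :=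
  (taylor ((i : ℕ) : ZMod q) (rsPol q m f)).coeff s

lemma rsPol_sub {q m : ℕ} (f g : Fin m → ZMod q) :
    rsPol q m (f - g) = rsPol q m f - rsPol q m g := by
  simp [rsPol, sub_mul, Finset.sum_sub_distrib]

lemma rsZ_sub {q m k : ℕ} (f g : Fin m → ZMod q) (i : Fin k) (s : ℕ) :
    rsZ q m k (f - g) i s = rsZ q m k f i s - rsZ q m k g i s := by
  simp [rsZ, rsPol_sub]

lemma coeff_rsPol {q m : ℕ} (f : Fin m → ZMod q) (j : Fin m) : (rsPol q m f).coeff j = f j := by
  rw [rsPol, finsetSum_coeff]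
  rw [Finset.sum_eq_single j]
  · simp
  · intro b _ hb
    rw [coeff_C_mul, coeff_X_pow, if_neg, mul_zero]
    intro h
    exact hb (Fin.ext h.symm)
  · simp

lemma degree_rsPol {q m : ℕ} (f : Fin m → ZMod q) : (rsPol q m f).degree < (m : ℕ) := by
  rw [degree_lt_iff_coeff_zero]
  intro n hn
  rw [rsPol, finsetSum_coeff]
  refine Finset.sum_eq_zero (fun j _ => ?_)
  rw [coeff_C_mul, coeff_X_pow, if_neg, mul_zero]
  intro h
  have := j.2
  omega

lemma rs_eq_zero {q m k : ℕ} [Fact q.Prime] (hk : k ≤ q) (t : Fin k → ℕ) (ht : m ≤ ∑ i, t i)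
    (f : Fin m → ZMod q) (h : ∀ i, ∀ s < t i, rsZ q m k f i s = 0) : f = 0 := by
  have hdvd : ∀ i, (X - C (((i : Fin k) : ℕ) : ZMod q)) ^ (t i) ∣ rsPol q m f := by
    intro i
    rw [X_sub_C_pow_dvd_iff, X_pow_dvd_iff]
    intro d hd
    have := h i d hd
    rw [rsZ, taylor_apply] at this
    exact this
  have hinj : Function.Injective (fun i : Fin k => ((i : ℕ) : ZMod q)) := by
    intro i j hij
    have h1 : ((i : ℕ) : ZMod q) = ((j : ℕ) : ZMod q) := hij
    rw [ZMod.natCast_eq_natCast_iff] at h1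
    have := Nat.ModEq.eq_of_lt_of_lt h1 (lt_of_lt_of_le i.2 hk) (lt_of_lt_of_le j.2 hk)
    exact Fin.ext this
  have hprod : (∏ i, (X - C (((i : Fin k) : ℕ) : ZMod q)) ^ (t i)) ∣ rsPol q m f := by
    refine Finset.prod_dvd_of_coprime ?_ (fun i _ => hdvd i)
    intro i _ j _ hij
    have := pairwise_coprime_X_sub_C hinj hij
    exact IsCoprime.pow this
  have hz : rsPol q m f = 0 := by
    by_contra hne
    have h1 := degree_le_of_dvd hprod hne
    have h2 : (∏ i, (X - C (((i : Fin k) : ℕ) : ZMod q)) ^ (t i)).degree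
        = ((∑ i, t i : ℕ) : WithBot ℕ) := by
      rw [degree_prod, Nat.cast_sum]
      refine Finset.sum_congr rfl (fun i _ => ?_)
      rw [degree_pow, degree_X_sub_C]
      simp
    rw [h2] at h1
    have h3 := lt_of_le_of_lt h1 (degree_rsPol f)
    have h4 : (∑ i, t i) < m := by exact_mod_cast h3
    omega
  funext j
  rw [← coeff_rsPol f j, hz]
  simp

lemma rs_inj {q m k : ℕ} [Fact q.Prime] (hk : k ≤ q) (t : Fin k → ℕ) (ht : m ≤ ∑ i, t i)
    (f g : Fin m → ZMod q) (h : ∀ i, ∀ s < t i, rsZ q m k f i s = rsZ q m k g i s) : f = g := by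
  have : f - g = 0 := rs_eq_zero hk t ht (f - g) (fun i s hs => by
    rw [rsZ_sub, h i s hs, sub_self])
  exact sub_eq_zero.mp this

theorem exists_rs (K n p : ℕ) [Fact p.Prime] (h : K + 1 ≤ p) :
    ∃ R : (Fin n → ZMod p) → Fin (K + 1) → ℕ → ZMod p, Net K n p R := by
  refine ⟨rsZ p n (K + 1), ?_⟩
  intro d hd
  rw [Fintype.bijective_iff_injective_and_card]
  constructor
  · intro f g hfg
    refine rs_inj h d hd.ge f g (fun i s hs => ?_)
    exact congrFun (congrFun hfg i) ⟨s, hs⟩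
  · simp only [Fintype.card_pi, Finset.prod_const, Finset.card_univ, Fintype.card_fin,
      ZMod.card, Finset.prod_pow_eq_pow_sum, hd]

end DiscTower
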