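import Pool.Agent.Work.DiscTower.Fib

/-! T4: `dl T` depends on the first `T` digits and has mean zero for `T ≥ 1`;
`tl 0 - tl T` depends on the first `T-1` digits. -/

namespace DiscTower
open Finset

theorem tlB_mu_nil (q p : ℕ) (e : Bool) (l : ℕ → ZMod p) :
    mu q p [] e l = if e then 1 else 0 := by
  simp [mu, fibL, fibE, vol]

theorem tlB_mu_cons_pos (q p : ℕ) (b : ℕ) (r : List ℕ) (e : Bool) (l : ℕ → ZMod p)
    (h : l 0 = (b : ZMod p)) :
    mu q p (b :: r) e l = ((b / p : ℕ) + mu q p r e (fun t => l (t + 1))) / q := by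
  simp [mu, fibL, fibE, vol, h]

theorem tlB_mu_cons_neg (q p : ℕ) (b : ℕ) (r : List ℕ) (e : Bool) (l : ℕ → ZMod p)
    (h : l 0 ≠ (b : ZMod p)) :
    mu q p (b :: r) e l = ((b / p : ℕ) + if (l 0).val < b % p then (1 : ℝ) else 0) / q := by
  simp [mu, fibL, fibE, vol, h]

theorem tlB_dl_zero' (q p : ℕ) (b : List ℕ) (e : Bool) (l : ℕ → ZMod p) :
    dl q p 0 b e l = vol (q * p) b e := by
  simp [dl, tl]

theorem tlB_dl_one_nil (q p : ℕ) (e : Bool) (l : ℕ → ZMod p) : dl q p 1 [] e l = 0 := by
  simp [dl, tl, tlB_mu_nil, vol]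

theorem tlB_dl_one_cons (q p : ℕ) (b : ℕ) (r : List ℕ) (e : Bool) (l : ℕ → ZMod p) :
    dl q p 1 (b :: r) e l =
      (if l 0 = (b : ZMod p) then ((b / p : ℕ) + vol (q * p) r e) / q
        else ((b / p : ℕ) + if (l 0).val < b % p then (1 : ℝ) else 0) / q)
      - vol (q * p) (b :: r) e := by
  by_cases h : l 0 = (b : ZMod p)
  · rw [if_pos h]
    simp only [dl, tl, if_pos h, tlB_mu_cons_pos q p b r e l h]
    ring
  · rw [if_neg h]
    simp only [dl, tl, if_neg h, tlB_mu_cons_neg q p b r e l h]
    ring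

theorem tlB_dl_succ_nil (q p : ℕ) (T : ℕ) (e : Bool) (l : ℕ → ZMod p) :
    dl q p (T + 2) [] e l = 0 := by
  simp [dl, tl]

theorem tlB_dl_succ_cons (q p : ℕ) (T : ℕ) (b : ℕ) (r : List ℕ) (e : Bool) (l : ℕ → ZMod p) :
    dl q p (T + 2) (b :: r) e l =
      if l 0 = (b : ZMod p) then dl q p (T + 1) r e (fun t => l (t + 1)) / q else 0 := by
  by_cases h : l 0 = (b : ZMod p)
  · rw [if_pos h]
    simp only [dl, tl, if_pos h]
    ring
  · rw [if_neg h]
    simp only [dl, tl, if_neg h]
    ring

theorem dl_congr (q p : ℕ) (T : ℕ) (b : List ℕ) (e : Bool) (l l' : ℕ → ZMod p)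
    (h : ∀ t < T, l t = l' t) : dl q p T b e l = dl q p T b e l' := by
  induction T generalizing b l l' with
  | zero => rw [tlB_dl_zero', tlB_dl_zero']
  | succ T ih =>
    cases T with
    | zero =>
      cases b with
      | nil => rw [tlB_dl_one_nil, tlB_dl_one_nil]
      | cons b r =>
        have h0 : l 0 = l' 0 := h 0 (by omega)
        rw [tlB_dl_one_cons, tlB_dl_one_cons, h0]
    | succ T =>
      cases b with
      | nil => rw [tlB_dl_succ_nil, tlB_dl_succ_nil]
      | cons b r =>
        have h0 : l 0 = l' 0 := h 0 (by omega)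
        rw [tlB_dl_succ_cons, tlB_dl_succ_cons, h0,
          ih r (fun t => l (t + 1)) (fun t => l' (t + 1)) (fun t ht => h (t + 1) (by omega))]

theorem tlB_ext_cons_zero {p d : ℕ} (x : ZMod p) (u : Fin d → ZMod p) :
    ext (Fin.cons x u : Fin (d + 1) → ZMod p) 0 = x := by
  simp only [ext, Nat.zero_lt_succ, dif_pos]
  rfl

theorem tlB_ext_cons_succ {p d : ℕ} (x : ZMod p) (u : Fin d → ZMod p) :
    (fun t => ext (Fin.cons x u : Fin (d + 1) → ZMod p) (t + 1)) = ext u := by
  funext t
  by_cases ht : t < d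
  · have ht' : t + 1 < d + 1 := by omega
    simp only [ext, dif_pos ht, dif_pos ht']
    rfl
  · have ht' : ¬ (t + 1 < d + 1) := by omega
    simp only [ext, dif_neg ht, dif_neg ht']

theorem tlB_sum_cons {p d : ℕ} [NeZero p] (f : (Fin (d + 1) → ZMod p) → ℝ) :
    ∑ u : Fin (d + 1) → ZMod p, f u = ∑ x : ZMod p, ∑ u : Fin d → ZMod p, f (Fin.cons x u) := by
  rw [← Fintype.sum_prod_type']
  exact (Fintype.sum_equiv (Fin.consEquiv (fun _ => ZMod p)) _ _ (fun _ => rfl)).symm

theorem tlB_card_val_lt {p : ℕ} [NeZero p] (m : ℕ) (hm : m ≤ p) :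
    (univ.filter (fun x : ZMod p => x.val < m)).card = m := by
  have : (univ.filter (fun x : ZMod p => x.val < m)) =
      (range m).image (fun i : ℕ => (i : ZMod p)) := by
    ext x
    simp only [mem_filter, mem_univ, true_and, mem_image, mem_range]
    constructor
    · intro h
      exact ⟨x.val, h, ZMod.natCast_zmod_val x⟩
    · rintro ⟨i, hi, rfl⟩
      rw [ZMod.val_natCast, Nat.mod_eq_of_lt (by omega)]
      exact hi
  rw [this, card_image_of_injOn, card_range]
  intro i hi j hj hij
  simp only [coe_range, Set.mem_Iio] at hi hj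
  have := congrArg ZMod.val hij
  simpa [ZMod.val_natCast, Nat.mod_eq_of_lt (show i < p by omega),
    Nat.mod_eq_of_lt (show j < p by omega)] using this

theorem tlB_sum_ite_lt {p : ℕ} [NeZero p] (b : ℕ) (c : ℝ) (V : ℝ) :
    ∑ x : ZMod p, (if x = (b : ZMod p) then c + V
      else c + if x.val < b % p then (1 : ℝ) else 0) = p * c + V + (b % p : ℕ) := by
  have h1 : ∀ x : ZMod p, (if x = (b : ZMod p) then c + V
      else c + if x.val < b % p then (1 : ℝ) else 0) =
      c + ((if x = (b : ZMod p) then V else 0) + if x.val < b % p then (1 : ℝ) else 0) := by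
    intro x
    by_cases h : x = (b : ZMod p)
    · have : ¬ (x.val < b % p) := by
        rw [h, ZMod.val_natCast]
        exact lt_irrefl _
      rw [if_pos h, if_pos h, if_neg this]
      ring
    · rw [if_neg h, if_neg h]
      ring
  rw [sum_congr rfl (fun x _ => h1 x), sum_add_distrib, sum_add_distrib]
  have h2 : ∑ x : ZMod p, (if x.val < b % p then (1 : ℝ) else 0) = ((b % p : ℕ) : ℝ) := by
    rw [← sum_filter, sum_const, tlB_card_val_lt _ (Nat.mod_lt _ (NeZero.pos p)).le]
    simp
  rw [h2]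
  simp [ZMod.card]
  ring

theorem sum_dl (q p : ℕ) [NeZero p] (hq : 1 ≤ q) (T : ℕ) (hT : 1 ≤ T) (b : List ℕ) (e : Bool) :
    ∑ u : Fin T → ZMod p, dl q p T b e (ext u) = 0 := by
  have hq' : (q : ℝ) ≠ 0 := by positivity
  have hp' : (p : ℝ) ≠ 0 := by exact_mod_cast (NeZero.ne p)
  induction T generalizing b with
  | zero => omega
  | succ T ih =>
    rw [tlB_sum_cons]
    cases T with
    | zero =>
      cases b with
      | nil => simp [tlB_dl_one_nil]
      | cons b r =>
        have h1 : ∀ x : ZMod p, ∑ u : Fin 0 → ZMod p,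
            dl q p (0 + 1) (b :: r) e (ext (Fin.cons x u : Fin (0 + 1) → ZMod p)) =
            (if x = (b : ZMod p) then ((b / p : ℕ) : ℝ) + vol (q * p) r e
              else ((b / p : ℕ) : ℝ) + if x.val < b % p then (1 : ℝ) else 0) / q
            - vol (q * p) (b :: r) e := by
          intro x
          rw [Fintype.sum_unique]
          refine (tlB_dl_one_cons q p b r e _).trans ?_
          rw [tlB_ext_cons_zero]
          congr 1
          split_ifs <;> rfl
        rw [sum_congr rfl (fun x _ => h1 x), sum_sub_distrib, ← sum_div, tlB_sum_ite_lt, sum_const,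
          card_univ, ZMod.card]
        have h2 : (b : ℝ) = p * ((b / p : ℕ) : ℝ) + ((b % p : ℕ) : ℝ) := by
          exact_mod_cast (Nat.div_add_mod b p).symm
        simp only [vol, nsmul_eq_mul]
        push_cast at h2 ⊢
        rw [h2]
        field_simp
        ring
    | succ T =>
      cases b with
      | nil => simp [tlB_dl_succ_nil]
      | cons b r =>
        have h1 : ∀ x : ZMod p, ∑ u : Fin (T + 1) → ZMod p,
            dl q p (T + 1 + 1) (b :: r) e (ext (Fin.cons x u : Fin (T + 1 + 1) → ZMod p)) = 0 := by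
          intro x
          by_cases h : x = (b : ZMod p)
          · have : ∀ u : Fin (T + 1) → ZMod p,
                dl q p (T + 2) (b :: r) e (ext (Fin.cons x u : Fin (T + 1 + 1) → ZMod p)) =
                dl q p (T + 1) r e (ext u) / q := by
              intro u
              rw [tlB_dl_succ_cons, tlB_ext_cons_zero, if_pos h, tlB_ext_cons_succ]
            rw [sum_congr rfl (fun u _ => this u), ← sum_div, ih (by omega) r, zero_div]
          · have : ∀ u : Fin (T + 1) → ZMod p,
                dl q p (T + 2) (b :: r) e (ext (Fin.cons x u : Fin (T + 1 + 1) → ZMod p)) = 0 := by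
              intro u
              rw [tlB_dl_succ_cons, tlB_ext_cons_zero, if_neg h]
            exact sum_eq_zero (fun u _ => this u)
        exact sum_eq_zero (fun x _ => h1 x)

theorem tlB_tl_sub_eq_sum (q p : ℕ) (T : ℕ) (b : List ℕ) (e : Bool) (l : ℕ → ZMod p) :
    tl q p 0 b e l - tl q p T b e l = ∑ i ∈ range T, dl q p i b e l := by
  induction T with
  | zero => simp
  | succ T ih =>
    rw [sum_range_succ, ← ih]
    simp only [dl]
    ring

theorem low_congr (q p : ℕ) (T : ℕ) (hT : 1 ≤ T) (b : List ℕ) (e : Bool) (l l' : ℕ → ZMod p)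
    (h : ∀ t, t + 1 < T → l t = l' t) :
    tl q p 0 b e l - tl q p T b e l = tl q p 0 b e l' - tl q p T b e l' := by
  rw [tlB_tl_sub_eq_sum, tlB_tl_sub_eq_sum]
  refine sum_congr rfl (fun i hi => dl_congr q p i b e l l' (fun t ht => h t ?_))
  have := mem_range.mp hi
  omega

end DiscTower
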