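import Pool.Agent.Work.DiscTower.TlA
import Pool.Agent.Work.DiscTower.TlB
import Pool.Agent.Work.DiscTower.NetSum
import Pool.Agent.Work.DiscTower.Tuples

/-! T7: the deterministic bound for `sys`. -/

namespace DiscTower
open Finset

/-- the low part of the expansion -/
noncomputable def lowS {K : ℕ} (n q p : ℕ) {C : Type} [Fintype C]
    (l : C → Fin (K + 1) → ℕ → ZMod p) (b : Fin (K + 1) → List ℕ) (e : Fin (K + 1) → Bool)
    (τ : Fin K → ℕ) : ℝ :=
  ∑ c, (tl q p 0 (b 0) (e 0) (l c 0) - tl q p (n + 1 - ∑ s, τ s) (b 0) (e 0) (l c 0)) *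
    ∏ s : Fin K, dl q p (τ s) (b s.succ) (e s.succ) (l c s.succ)

/-- the inner sums of the expansion -/
noncomputable def innS {K : ℕ} (n q p : ℕ) {C : Type} [Fintype C]
    (l : C → Fin (K + 1) → ℕ → ZMod p) (b : Fin (K + 1) → List ℕ) (e : Fin (K + 1) → Bool)
    (τ : Fin K → ℕ) : ℝ :=
  ∑ c, tl q p (n + 1 - ∑ s, τ s) (b 0) (e 0) (l c 0) *
    ∏ s : Fin K, dl q p (τ s) (b s.succ) (e s.succ) (l c s.succ)

theorem mu_eq_sum_dl {q p n : ℕ} (b : List ℕ) (e : Bool) (l : ℕ → ZMod p) (hlen : b.length ≤ n) :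
    mu q p b e l = ∑ τ ∈ range (n + 1), dl q p τ b e l := by
  have h := Finset.sum_range_sub' (fun T => tl q p T b e l) (n + 1)
  simp only [dl]
  rw [h, tl_eq_zero _ _ (n + 1) _ _ _ (by omega) (by omega)]
  simp [tl]

theorem sys_expand {K n q p : ℕ} {C : Type} [Fintype C]
    (l : C → Fin (K + 1) → ℕ → ZMod p)
    (b : Fin (K + 1) → List ℕ) (e : Fin (K + 1) → Bool) (hlen : ∀ s, (b s).length ≤ n) :
    ∑ c, ∏ s, mu q p (b s) (e s) (l c s) =
      ∑ τ ∈ Fintype.piFinset (fun _ : Fin K => range (n + 1)), lowS n q p l b e τ +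
      ∑ τ ∈ Fintype.piFinset (fun _ : Fin K => range (n + 1)), innS n q p l b e τ := by
  rw [← Finset.sum_add_distrib]
  simp only [lowS, innS]
  simp_rw [← Finset.sum_add_distrib]
  rw [Finset.sum_comm]
  refine Finset.sum_congr rfl fun c _ => ?_
  rw [Fin.prod_univ_succ]
  have h1 : ∏ s : Fin K, mu q p (b s.succ) (e s.succ) (l c s.succ) =
      ∑ τ ∈ Fintype.piFinset (fun _ : Fin K => range (n + 1)),
        ∏ s : Fin K, dl q p (τ s) (b s.succ) (e s.succ) (l c s.succ) := by
    rw [Finset.prod_congr rfl fun s _ => mu_eq_sum_dl (q := q) (p := p) (b (Fin.succ s))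
      (e (Fin.succ s)) (l c (Fin.succ s)) (hlen _)]
    exact Finset.prod_univ_sum _ _
  rw [h1, Finset.mul_sum]
  refine Finset.sum_congr rfl fun τ _ => ?_
  have h2 : mu q p (b 0) (e 0) (l c 0) = tl q p 0 (b 0) (e 0) (l c 0) := by simp [tl]
  rw [h2]
  ring

theorem lowS_eq_zero {K n q p : ℕ} [NeZero p] (hq : 1 ≤ q) {C : Type} [Fintype C]
    {l : C → Fin (K + 1) → ℕ → ZMod p} (hnet : Net K n p l)
    (b : Fin (K + 1) → List ℕ) (e : Fin (K + 1) → Bool) (τ : Fin K → ℕ) (hτ : τ ≠ 0) :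
    lowS n q p l b e τ = 0 := by
  unfold lowS
  by_cases hS : ∑ s, τ s ≤ n
  · obtain ⟨s₀, hs₀⟩ : ∃ s, τ s ≠ 0 := by
      by_contra hcon
      push Not at hcon
      exact hτ (funext hcon)
    have key := net_sum hnet (Fin.cons (n - ∑ s, τ s) τ)
      (by rw [Fin.sum_univ_succ]; simp; omega)
      (Fin.cons (fun x => tl q p 0 (b 0) (e 0) x - tl q p (n + 1 - ∑ s, τ s) (b 0) (e 0) x)
        (fun s x => dl q p (τ s) (b s.succ) (e s.succ) x))
      (by
        intro s
        refine Fin.cases ?_ (fun s => ?_) s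
        · intro x x' hx
          simp only [Fin.cons_zero] at hx ⊢
          refine low_congr q p _ (by omega) _ _ _ _ (fun t ht => hx t (by omega))
        · intro x x' hx
          simp only [Fin.cons_succ] at hx ⊢
          exact dl_congr q p _ _ _ _ _ hx)
    rw [Fin.prod_univ_succ] at key
    simp only [Fin.prod_univ_succ, Fin.cons_zero, Fin.cons_succ] at key
    rw [key]
    rw [Finset.prod_eq_zero (Finset.mem_univ s₀)
      (sum_dl q p hq (τ s₀) (by omega) (b s₀.succ) (e s₀.succ)), mul_zero]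
  · have : n + 1 - ∑ s, τ s = 0 := by omega
    rw [this]
    simp

theorem lowS_zero {K n q p : ℕ} [NeZero p] (hq : 1 ≤ q) {C : Type} [Fintype C]
    {l : C → Fin (K + 1) → ℕ → ZMod p} (hnet : Net K n p l)
    (b : Fin (K + 1) → List ℕ) (e : Fin (K + 1) → Bool) (hlen : ∀ s, (b s).length ≤ n) :
    lowS n q p l b e 0 = (p : ℝ) ^ n * ∏ s, vol (q * p) (b s) (e s) := by
  unfold lowS
  have key := net_sum hnet (Fin.cons n (fun _ => 0))
    (by rw [Fin.sum_univ_succ]; simp)
    (Fin.cons (fun x => mu q p (b 0) (e 0) x)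
      (fun s x => dl q p 0 (b s.succ) (e s.succ) x))
    (by
      intro s
      refine Fin.cases ?_ (fun s => ?_) s
      · intro x x' hx
        simp only [Fin.cons_zero] at hx ⊢
        have h1 := low_congr q p (n + 1) (by omega) (b 0) (e 0) x x'
          (fun t ht => hx t (by omega))
        rw [tl_eq_zero q p (n + 1) (b 0) (e 0) x (by omega) (by have := hlen 0; omega),
          tl_eq_zero q p (n + 1) (b 0) (e 0) x' (by omega) (by have := hlen 0; omega)] at h1
        simpa [tl] using h1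
      · intro x x' hx
        simp only [Fin.cons_succ] at hx ⊢
        exact dl_congr q p _ _ _ _ _ hx)
  rw [Fin.prod_univ_succ] at key
  simp only [Fin.prod_univ_succ, Fin.cons_zero, Fin.cons_succ] at key
  rw [Fin.prod_univ_succ, ← mul_assoc, ← mean_mu q p n hq (b 0) (e 0) (hlen 0)]
  simp only [Pi.zero_apply, Finset.sum_const_zero, Nat.sub_zero]
  have h0 : ∀ c, tl q p 0 (b 0) (e 0) (l c 0) - tl q p (n + 1) (b 0) (e 0) (l c 0) =
      mu q p (b 0) (e 0) (l c 0) := by
    intro c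
    rw [tl_eq_zero q p (n + 1) (b 0) (e 0) _ (by omega) (by have := hlen 0; omega)]
    simp [tl]
  simp_rw [h0]
  rw [key]
  congr 1
  refine Finset.prod_congr rfl fun s _ => ?_
  simp [dl_zero]

/-- the size of the inner sums -/
theorem innS_le {K n q p : ℕ} [NeZero p] (hq : 1 ≤ q) {C : Type} [Fintype C]
    {l : C → Fin (K + 1) → ℕ → ZMod p} (hnet : Net K n p l)
    (b : Fin (K + 1) → List ℕ) (e : Fin (K + 1) → Bool)
    (hdig : ∀ s, ∀ d ∈ b s, d < q * p) (τ : Fin K → ℕ) :
    |innS n q p l b e τ| ≤ (p : ℝ) ^ K * (1 / (q : ℝ)) ^ (n + 1) := by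
  classical
  set T := n + 1 - ∑ s, τ s with hT
  have hq' : (0 : ℝ) < q := by exact_mod_cast hq
  have hq1 : 1 / (q : ℝ) ≤ 1 := by
    rw [div_le_one hq']; exact_mod_cast hq
  have hq0 : 0 ≤ 1 / (q : ℝ) := by positivity
  set G : Finset C := univ.filter (fun c : C => ∀ s, ∀ t < (Fin.cons (T - 1)
    (fun s => τ s - 1) : Fin (K + 1) → ℕ) s, l c s t = (((b s).getD t 0 : ℕ) : ZMod p)) with hG
  have hcard : G.card ≤ p ^ K := by
    refine net_count hnet _ K ?_ (fun s t => (((b s).getD t 0 : ℕ) : ZMod p))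
    rw [Fin.sum_univ_succ]
    simp only [Fin.cons_zero, Fin.cons_succ]
    have h1 : ∑ s, τ s ≤ ∑ s : Fin K, (τ s - 1) + K := by
      have h2 : ∑ s, τ s ≤ ∑ s : Fin K, ((τ s - 1) + 1) :=
        Finset.sum_le_sum fun s _ => by omega
      rw [Finset.sum_add_distrib] at h2
      simpa using h2
    omega
  have hterm : ∀ c, |tl q p T (b 0) (e 0) (l c 0) *
      ∏ s : Fin K, dl q p (τ s) (b s.succ) (e s.succ) (l c s.succ)| ≤
      if c ∈ G then (1 / (q : ℝ)) ^ (n + 1) else 0 := by
    intro c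
    split_ifs with hc
    · rw [abs_mul, Finset.abs_prod]
      have h1 := abs_tl_le q p hq T (b 0) (e 0) (l c 0) (hdig 0)
      have h2 : ∏ s : Fin K, |dl q p (τ s) (b s.succ) (e s.succ) (l c s.succ)| ≤
          ∏ s : Fin K, (1 / (q : ℝ)) ^ (τ s) :=
        Finset.prod_le_prod (fun s _ => abs_nonneg _)
          (fun s _ => abs_dl_le q p hq (τ s) (b s.succ) (e s.succ) (l c s.succ) (hdig _))
      rw [Finset.prod_pow_eq_pow_sum] at h2
      calc _ ≤ (1 / (q : ℝ)) ^ T * (1 / (q : ℝ)) ^ (∑ s, τ s) :=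
            mul_le_mul h1 h2 (Finset.prod_nonneg fun s _ => abs_nonneg _) (by positivity)
        _ = (1 / (q : ℝ)) ^ (T + ∑ s, τ s) := by rw [pow_add]
        _ ≤ (1 / (q : ℝ)) ^ (n + 1) := pow_le_pow_of_le_one hq0 hq1 (by omega)
    · rw [abs_nonpos_iff]
      by_contra hne
      have hne1 := left_ne_zero_of_mul hne
      have hne2 := right_ne_zero_of_mul hne
      apply hc
      rw [hG, Finset.mem_filter]
      refine ⟨Finset.mem_univ _, fun s => ?_⟩
      refine Fin.cases ?_ (fun s => ?_) s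
      · intro t ht
        simp only [Fin.cons_zero] at ht
        exact tl_prefix q p T (b 0) (e 0) (l c 0) hne1 t (by omega)
      · intro t ht
        simp only [Fin.cons_succ] at ht
        have := Finset.prod_ne_zero_iff.mp hne2 s (Finset.mem_univ _)
        exact dl_prefix q p (τ s) (b s.succ) (e s.succ) (l c s.succ) this t (by omega)
  unfold innS
  calc _ ≤ ∑ c, |tl q p T (b 0) (e 0) (l c 0) *
      ∏ s : Fin K, dl q p (τ s) (b s.succ) (e s.succ) (l c s.succ)| :=
        Finset.abs_sum_le_sum_abs _ _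
    _ ≤ ∑ c, if c ∈ G then (1 / (q : ℝ)) ^ (n + 1) else 0 :=
        Finset.sum_le_sum fun c _ => hterm c
    _ = G.card * (1 / (q : ℝ)) ^ (n + 1) := by
        rw [← Finset.sum_filter, Finset.sum_const, nsmul_eq_mul]
        congr 2
        simp
    _ ≤ _ := by
        refine mul_le_mul_of_nonneg_right ?_ (by positivity)
        exact_mod_cast hcard

/-- a nonzero inner sum has a relevant index -/
theorem innS_rel {K n q p : ℕ} {C : Type} [Fintype C]
    {l : C → Fin (K + 1) → ℕ → ZMod p}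
    (b : Fin (K + 1) → List ℕ) (e : Fin (K + 1) → Bool) (τ : Fin K → ℕ)
    (h : innS n q p l b e τ ≠ 0) :
    (∀ s, τ s ≤ (b s.succ).length) ∧ n + 1 - ∑ s, τ s ≤ (b 0).length := by
  unfold innS at h
  obtain ⟨c, _, hc⟩ := Finset.exists_ne_zero_of_sum_ne_zero h
  have hne1 := left_ne_zero_of_mul hc
  have hne2 := right_ne_zero_of_mul hc
  refine ⟨fun s => ?_, ?_⟩
  · exact dl_length q p (τ s) _ _ _ (Finset.prod_ne_zero_iff.mp hne2 s (Finset.mem_univ _))
  · by_contra hlt
    push Not at hlt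
    exact hne1 (tl_eq_zero q p _ _ _ _ (by omega) hlt)

theorem sys_bound {K n q p : ℕ} [NeZero p] (hK : 1 ≤ K) (hq : 1 ≤ q) {C : Type} [Fintype C]
    {l : C → Fin (K + 1) → ℕ → ZMod p} (hnet : Net K n p l)
    (b : Fin (K + 1) → List ℕ) (e : Fin (K + 1) → Bool) (hlen : ∀ s, (b s).length ≤ n)
    (hdig : ∀ s, ∀ d ∈ b s, d < q * p) :
    |sys K n q p l b e| ≤ (p : ℝ) ^ K / q * W K (exc n b) := by
  classical
  have hq' : (0 : ℝ) < q := by exact_mod_cast hq
  set G := Fintype.piFinset (fun _ : Fin K => range (n + 1)) with hG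
  have h0 : (0 : Fin K → ℕ) ∈ G := by simp [hG]
  have hlow : ∑ τ ∈ G, lowS n q p l b e τ = (p : ℝ) ^ n * ∏ s, vol (q * p) (b s) (e s) := by
    rw [Finset.sum_eq_single_of_mem 0 h0
      (fun τ _ hτ => lowS_eq_zero hq hnet b e τ hτ), lowS_zero hq hnet b e hlen]
  have hsys : sys K n q p l b e = (q : ℝ) ^ n * ∑ τ ∈ G, innS n q p l b e τ := by
    unfold sys
    rw [sys_expand l b e hlen, hlow]
    ring
  -- relevant indices
  set Rl := G.filter (fun τ => innS n q p l b e τ ≠ 0) with hRl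
  have hsum : ∑ τ ∈ G, innS n q p l b e τ = ∑ τ ∈ Rl, innS n q p l b e τ := by
    rw [hRl, Finset.sum_filter_ne_zero]
  have hcard : Rl.card ≤ W K (exc n b) := by
    rw [← card_tuples_le K (exc n b) hK]
    refine Finset.card_le_card_of_injOn (fun τ s => (b s.succ).length - τ s) ?_ ?_
    · intro τ hτ
      have hτ' := innS_rel b e τ (Finset.mem_filter.mp hτ).2
      have hsumlen : ∑ s : Fin K, ((b s.succ).length - τ s) + ∑ s, τ s =
          ∑ s : Fin K, (b s.succ).length := by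
        rw [← Finset.sum_add_distrib]
        exact Finset.sum_congr rfl fun s _ => by have := hτ'.1 s; omega
      have htot : exc n b = (b 0).length + ∑ s : Fin K, (b s.succ).length - n := by
        unfold exc
        rw [Fin.sum_univ_succ]
      have hle : ∑ s : Fin K, ((b s.succ).length - τ s) + 1 ≤ exc n b := by
        have := hτ'.2
        omega
      simp only [Finset.coe_filter, Set.mem_ofPred_eq, Fintype.mem_piFinset, Finset.mem_range]
      refine ⟨fun s => ?_, hle⟩
      have : (b s.succ).length - τ s ≤ ∑ s : Fin K, ((b s.succ).length - τ s) :=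
        Finset.single_le_sum (f := fun s : Fin K => (b s.succ).length - τ s)
          (fun _ _ => Nat.zero_le _) (Finset.mem_univ s)
      omega
    · intro τ hτ τ' hτ' heq
      have h1 := innS_rel b e τ (Finset.mem_filter.mp hτ).2
      have h2 := innS_rel b e τ' (Finset.mem_filter.mp hτ').2
      funext s
      have h3 := congrFun heq s
      simp only at h3
      have := h1.1 s
      have := h2.1 s
      omega
  rw [hsys, hsum, abs_mul, abs_of_nonneg (by positivity : (0 : ℝ) ≤ (q : ℝ) ^ n)]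
  have hb : |∑ τ ∈ Rl, innS n q p l b e τ| ≤
      W K (exc n b) * ((p : ℝ) ^ K * (1 / (q : ℝ)) ^ (n + 1)) := by
    calc _ ≤ ∑ τ ∈ Rl, |innS n q p l b e τ| := Finset.abs_sum_le_sum_abs _ _
      _ ≤ ∑ _τ ∈ Rl, (p : ℝ) ^ K * (1 / (q : ℝ)) ^ (n + 1) :=
          Finset.sum_le_sum fun τ _ => innS_le hq hnet b e hdig τ
      _ = Rl.card * ((p : ℝ) ^ K * (1 / (q : ℝ)) ^ (n + 1)) := by
          rw [Finset.sum_const, nsmul_eq_mul]
      _ ≤ _ := by
          refine mul_le_mul_of_nonneg_right ?_ (by positivity)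
          exact_mod_cast hcard
  calc (q : ℝ) ^ n * |∑ τ ∈ Rl, innS n q p l b e τ| ≤
      (q : ℝ) ^ n * (W K (exc n b) * ((p : ℝ) ^ K * (1 / (q : ℝ)) ^ (n + 1))) :=
        mul_le_mul_of_nonneg_left hb (by positivity)
    _ = (p : ℝ) ^ K / q * W K (exc n b) := by
        rw [pow_succ, one_div, inv_pow]
        field_simp

end DiscTower
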