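import Pool.Agent.Work.DiscTower.Fib
import Pool.Agent.Work.DiscTower.NetSum

/-! T8: the mean of `sys` over a uniform digit shift is zero. -/

namespace DiscTower
open Finset

theorem mu_congr' (q p : ℕ) (b : List ℕ) (e : Bool) (l l' : ℕ → ZMod p)
    (h : ∀ t < b.length, l t = l' t) : mu q p b e l = mu q p b e l' := by
  induction b generalizing l l' with
  | nil => rfl
  | cons b r ih =>
    have h0 : l 0 = l' 0 := h 0 (by simp)
    have ih' := ih (fun t => l (t + 1)) (fun t => l' (t + 1))
      (fun t ht => h (t + 1) (by simpa using ht))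
    unfold mu at ih' ⊢
    simp only [fibL, fibE, h0]
    by_cases hb : l' 0 = (b : ZMod p)
    · simp only [if_pos hb, vol, ih']
    · simp only [if_neg hb]

theorem sum_shift_mu (q p n : ℕ) [NeZero p] (hq : 1 ≤ q) (b : List ℕ) (e : Bool)
    (hb : b.length ≤ n) (r : ℕ → ZMod p) :
    ∑ u : Fin n → ZMod p, mu q p b e (fun t => r t + ext u t) =
      (p : ℝ) ^ n * vol (q * p) b e := by
  rw [← mean_mu q p n hq b e hb]
  refine Fintype.sum_equiv (Equiv.addLeft (fun t : Fin n => r t)) _ _ ?_
  intro u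
  apply mu_congr'
  intro t ht
  have htn : t < n := lt_of_lt_of_le ht hb
  simp [ext, htn]

theorem sys_mean {K n q p : ℕ} [NeZero p] (hq : 1 ≤ q) {C : Type} [Fintype C]
    (R : C → Fin (K + 1) → ℕ → ZMod p) (hC : Fintype.card C = p ^ n)
    (b : Fin (K + 1) → List ℕ) (e : Fin (K + 1) → Bool) (hlen : ∀ s, (b s).length ≤ n) :
    ∑ g : Fin (K + 1) → Fin n → ZMod p,
      sys K n q p (fun c s t => R c s t + ext (g s) t) b e = 0 := by
  unfold sys
  rw [← Finset.mul_sum, Finset.sum_sub_distrib, Finset.sum_comm]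
  have h1 : ∀ c : C, ∑ g : Fin (K + 1) → Fin n → ZMod p,
      ∏ s, mu q p (b s) (e s) (fun t => R c s t + ext (g s) t) =
      ∏ s, ((p : ℝ) ^ n * vol (q * p) (b s) (e s)) := by
    intro c
    rw [← Finset.prod_congr rfl (fun s _ => sum_shift_mu q p n hq (b s) (e s) (hlen s) (R c s))]
    rw [Finset.prod_univ_sum, Fintype.piFinset_univ]
  rw [Finset.sum_congr rfl (fun c _ => h1 c), Finset.sum_const, Finset.sum_const,
    Finset.card_univ, Finset.card_univ, hC, Fintype.card_fun, Fintype.card_fun, ZMod.card,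
    Fintype.card_fin, Fintype.card_fin, nsmul_eq_mul, nsmul_eq_mul, Finset.prod_mul_distrib,
    Finset.prod_const, Finset.card_univ, Fintype.card_fin]
  push_cast
  ring

end DiscTower
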