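import Pool.Agent.Work.DiscTower.Fib
import Pool.Agent.Work.DiscTower.NetSum
import Pool.Agent.Work.DiscTower.Tuples

/-! T9: tiles. -/

namespace DiscTower
open Finset

/-- tuples `u` with `∑ u + a = x` -/
def tiles_set (K a x : ℕ) : Finset (Fin (K + 1) → ℕ) :=
  if a ≤ x then Finset.Nat.antidiagonalTuple (K + 1) (x - a) else ∅

theorem tiles_mem {K a x : ℕ} {u : Fin (K + 1) → ℕ} :
    u ∈ tiles_set K a x ↔ ∑ s, u s + a = x := by
  unfold tiles_set
  split_ifs with h
  · rw [Finset.Nat.mem_antidiagonalTuple]
    omega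
  · simp only [notMem_empty, false_iff]
    omega

theorem tiles_W_eq {K : ℕ} (hK : 1 ≤ K) (n S : ℕ) :
    W K (S - n) = (tiles_set K (K + 1 + n) (S + K)).card := by
  unfold tiles_set W
  split_ifs with h
  · rw [card_tuples]
    congr 1
    omega
  · rw [card_empty]
    apply Nat.choose_eq_zero_of_lt
    omega

theorem tiles_V_eq {K : ℕ} (hK : 1 ≤ K) (n S : ℕ) :
    V K (S - n) = (tiles_set K (K + 1 + n) (S + 0)).card := by
  unfold tiles_set V
  split_ifs with h
  · rw [card_tuples]
    congr 1
    omega
  · rw [card_empty]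
    apply Nat.choose_eq_zero_of_lt
    omega

/-- the tiling count -/
theorem tiles_main {K n p : ℕ} [NeZero p] (m : ℕ) {C : Type} [Fintype C]
    {l : C → Fin (K + 1) → ℕ → ZMod p} (hnet : Net K n p l) (b : Fin (K + 1) → List ℕ) :
    ∑ c, (tiles_set K (K + 1 + n) ((∑ s, (fibL p (b s) (l c s)).length) + m)).card ≤
      p ^ m * (tiles_set K (K + 1 + n) ((∑ s, (b s).length) + m)).card := by
  classical
  rw [← card_sigma]
  have h1 : ((univ : Finset C).sigma
      (fun c => tiles_set K (K + 1 + n) ((∑ s, (fibL p (b s) (l c s)).length) + m))).card ≤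
      ((tiles_set K (K + 1 + n) ((∑ s, (b s).length) + m)).sigma
        (fun v => univ.filter (fun c : C => ∀ s, ∀ t < (b s).length - v s - 1,
          l c s t = (((b s).getD t 0 : ℕ) : ZMod p)))).card := by
    apply card_le_card_of_injOn
      (fun x => (⟨fun s => (b s).length - (fibL p (b s) (l x.1 s)).length + x.2 s, x.1⟩ :
        (_ : Fin (K + 1) → ℕ) × C))
    · rintro ⟨c, u⟩ hx
      rw [mem_coe, mem_sigma] at hx
      have hu := tiles_mem.mp hx.2
      simp only at hu
      rw [mem_coe, mem_sigma]
      constructor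
      · rw [tiles_mem]
        simp only
        rw [sum_add_distrib]
        have h2 : ∑ s, ((b s).length - (fibL p (b s) (l c s)).length) +
            ∑ s, (fibL p (b s) (l c s)).length = ∑ s, (b s).length := by
          rw [← sum_add_distrib]
          apply sum_congr rfl
          intro s _
          have := fibL_length_le p (b s) (l c s)
          omega
        omega
      · simp only [mem_filter, mem_univ, true_and]
        intro s t ht
        apply fibL_prefix p (b s) (l c s) (t + 1) _ t (Nat.lt_succ_self t)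
        omega
    · rintro ⟨c, u⟩ hx ⟨c', u'⟩ hx' h
      simp only [Sigma.mk.injEq] at h
      obtain ⟨h2, h3⟩ := h
      have h3' : c = c' := by simpa using h3
      subst h3'
      have : u = u' := by
        funext s
        have := congrFun h2 s
        omega
      subst this
      rfl
  refine h1.trans ?_
  rw [card_sigma, mul_comm, ← smul_eq_mul]
  apply sum_le_card_nsmul
  intro v hv
  have hv' := tiles_mem.mp hv
  apply net_count hnet
  have h2 : ∑ s, (b s).length ≤ ∑ s, ((b s).length - v s - 1) + ∑ s, v s + (K + 1) := by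
    have h3 : ∑ _s : Fin (K + 1), 1 = K + 1 := by simp
    calc ∑ s, (b s).length ≤ ∑ s, (((b s).length - v s - 1) + v s + 1) := by
          apply sum_le_sum
          intro s _
          omega
      _ = _ := by rw [sum_add_distrib, sum_add_distrib, h3]
  omega

theorem exc_fib_le {K p : ℕ} (n : ℕ) (b : Fin (K + 1) → List ℕ) (l : Fin (K + 1) → ℕ → ZMod p) :
    exc n (fun s => fibL p (b s) (l s)) ≤ exc n b := by
  unfold exc
  apply Nat.sub_le_sub_right
  apply sum_le_sum
  intro s _
  exact fibL_length_le p (b s) (l s)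

theorem tiles_W {K n p : ℕ} [NeZero p] (hK : 1 ≤ K) {C : Type} [Fintype C]
    {l : C → Fin (K + 1) → ℕ → ZMod p} (hnet : Net K n p l) (b : Fin (K + 1) → List ℕ) :
    ∑ c, W K (exc n (fun s => fibL p (b s) (l c s))) ≤ p ^ K * W K (exc n b) := by
  unfold exc
  simp only [tiles_W_eq hK]
  exact tiles_main K hnet b

theorem tiles_V {K n p : ℕ} [NeZero p] (hK : 1 ≤ K) {C : Type} [Fintype C]
    {l : C → Fin (K + 1) → ℕ → ZMod p} (hnet : Net K n p l) (b : Fin (K + 1) → List ℕ) :
    ∑ c, V K (exc n (fun s => fibL p (b s) (l c s))) ≤ V K (exc n b) := by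
  unfold exc
  simp only [tiles_V_eq hK]
  have := tiles_main 0 hnet b
  simpa using this

end DiscTower
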