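import Pool.Agent.Work.DiscTower.RS
import Pool.Agent.Work.DiscTower.Sys
import Pool.Agent.Work.DiscTower.SysMean
import Pool.Agent.Work.DiscTower.Tiles
import Pool.Agent.Work.DiscTower.Num

/-! T11: one step of the tower. -/

namespace DiscTower
open Finset

theorem val_zero_vol_one (b : List ℕ) (e : Bool) (hb : ∀ d ∈ b, d < 1) :
    val b e (fun _ => 0) = vol 1 b e := by
  induction b with
  | nil => rfl
  | cons d r ih =>
    have hd : d = 0 := by have := hb d (by simp); omega
    have := ih (fun d hd => hb d (by simp [hd]))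
    subst hd
    simp only [val, vol, lt_irrefl, if_false, if_true]
    rw [this]; simp

theorem mgf_zero (K n : ℕ) (lam : ℝ) : MGF K n 1 lam 0 0 := by
  refine ⟨Unit, Unit, inferInstance, inferInstance, inferInstance, fun _ _ _ _ => 0, ?_, ?_, ?_⟩
  · intros; exact Nat.one_pos
  · intro _ y hy
    refine ⟨(), ?_, fun _ _ => rfl⟩
    intro t _
    have := hy t
    show 0 = y t
    omega
  · intro b e _ hd σ _
    have h0 : disc n 1 (fun (_ : Unit) (_ : Fin (K + 1)) (_ : ℕ) => 0) b e = 0 := by
      unfold disc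
      simp only [univ_unique, sum_const, card_singleton, one_smul, Nat.cast_one, one_pow, one_mul]
      rw [sub_eq_zero]
      exact prod_congr rfl fun s _ => val_zero_vol_one (b s) (e s) (hd s)
    simp only [h0, mul_zero, Real.exp_zero, sum_const, card_univ]
    simp

/-- deterministic identity: discrepancy of one tower step -/
theorem disc_step {K n q p : ℕ} [NeZero p] {C I : Type} [Fintype C] [Fintype I]
    (l : C → Fin (K + 1) → ℕ → ZMod p) (x : C → I → Fin (K + 1) → ℕ → ℕ)
    (b : Fin (K + 1) → List ℕ) (e : Fin (K + 1) → Bool) :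
    disc n (q * p) (fun ci : C × I => fun s => cmb p (x ci.1 ci.2 s) (l ci.1 s)) b e =
      ∑ c, disc n q (x c) (fun s => fibL p (b s) (l c s)) (fun s => fibE p (b s) (e s) (l c s))
        + sys K n q p l b e := by
  unfold disc sys mu
  rw [Fintype.sum_prod_type]
  simp only [val_cmb, sum_sub_distrib, Nat.cast_mul]
  rw [← mul_sum, mul_pow]
  ring

theorem mgf_step (K n q p : ℕ) [Fact p.Prime] (hK : 1 ≤ K) (hp : K + 1 ≤ p) (hq : 1 ≤ q)
    (lam A B : ℝ) (hlam : 0 ≤ lam) (hA : 0 ≤ A) (hB : 0 ≤ B) (ℓ : ℕ) (del : ℝ) (hdel : 0 ≤ del)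
    (hℓ : ∀ L, ℓ ≤ L → (W K L : ℝ) ≤ (1 + del) * V K L) (h : MGF K n q lam A B) :
    MGF K n (q * p) lam
      ((1 + del) * A + (p : ℝ) ^ K * B * W K ℓ + lam * ((p : ℝ) ^ K / q))
      ((p : ℝ) ^ K * B + (lam * ((p : ℝ) ^ K / q)) ^ 2) := by
  obtain ⟨Ω, I, _, _, _, x, hx, hu, hm⟩ := h
  obtain ⟨R, hR⟩ := exists_rs K n p hp
  have hp0 : 0 < p := (Fact.out : p.Prime).pos
  -- the net of low digits
  let l : (Fin (K + 1) → Fin n → ZMod p) → (Fin n → ZMod p) → Fin (K + 1) → ℕ → ZMod p := fun g c s t => R c s t + ext (g s) t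
  have hl : ∀ g, Net K n p (l g) := fun g => hR.add fun s => ext (g s)
  refine ⟨(Fin (K + 1) → Fin n → ZMod p) × ((Fin n → ZMod p) → Ω), (Fin n → ZMod p) × I, inferInstance, inferInstance, inferInstance,
    fun go ci s => cmb p (x (go.2 ci.1) ci.2 s) (l go.1 ci.1 s), ?_, ?_, ?_⟩
  · rintro ⟨g, o⟩ ⟨c, i⟩ s t
    have h1 := hx (o c) i s t
    have h2 := ZMod.val_lt (l g c s t)
    show x (o c) i s t * p + (l g c s t).val < q * p
    calc x (o c) i s t * p + (l g c s t).val < x (o c) i s t * p + p := by omega
      _ = (x (o c) i s t + 1) * p := by ring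
      _ ≤ q * p := Nat.mul_le_mul_right _ h1
  · rintro ⟨g, o⟩ y hy
    -- the codeword
    have hd : ∑ s : Fin (K + 1), (if s = 0 then n else 0) = n := by simp
    obtain ⟨hinj, hsurj⟩ := hl g (fun s => if s = 0 then n else 0) hd
    obtain ⟨c, hc⟩ := hsurj (fun s t => ((y t : ℕ) : ZMod p))
    have hc' : ∀ t < n, l g c 0 t = ((y t : ℕ) : ZMod p) := by
      intro t ht
      exact congr_fun (congr_fun hc 0) ⟨t, by simpa using ht⟩
    have hcu : ∀ c', (∀ t < n, l g c' 0 t = ((y t : ℕ) : ZMod p)) → c' = c := by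
      intro c' h'
      apply hinj
      funext s t
      by_cases hs : s = 0
      · subst hs
        have ht : (t : ℕ) < n := by have := t.2; simpa using this
        show l g c' 0 t = l g c 0 t
        rw [h' _ ht, hc' _ ht]
      · exact absurd t.2 (by simp [hs])
    obtain ⟨i, hi, hiu⟩ := hu (o c) (fun t => y t / p) (fun t => by
      rw [Nat.div_lt_iff_lt_mul hp0]; exact hy t)
    refine ⟨(c, i), ?_, ?_⟩
    · intro t ht
      show x (o c) i 0 t * p + (l g c 0 t).val = y t
      rw [hi t ht, hc' t ht, ZMod.val_natCast]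
      exact Nat.div_add_mod' (y t) p
    · rintro ⟨c', i'⟩ h'
      have h'' : ∀ t < n, x (o c') i' 0 t * p + (l g c' 0 t).val = y t := h'
      have h1 : c' = c := by
        apply hcu
        intro t ht
        have := h'' t ht
        rw [← this]
        push_cast
        simp
      subst h1
      have h2 : i' = i := by
        apply hiu
        intro t ht
        have := h'' t ht
        show x (o c') i' 0 t = y t / p
        rw [← this, mul_comm, Nat.mul_add_div hp0, Nat.div_eq_of_lt (ZMod.val_lt _), add_zero]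
      rw [h2]
  · intro b e hlen hdig σ hσ
    have habs : |σ| = lam := by
      rcases hσ with h | h
      · rw [h, abs_of_nonneg hlam]
      · rw [h, abs_neg, abs_of_nonneg hlam]
    set w : ℝ := (W K (exc n b) : ℝ) with hw
    have hw0 : 0 ≤ w := by positivity
    set ε : ℝ := (p : ℝ) ^ K / q with hε
    have hε0 : 0 ≤ ε := by positivity
    set A' : ℝ := (1 + del) * A + (p : ℝ) ^ K * B * W K ℓ with hA'
    set B' : ℝ := (p : ℝ) ^ K * B with hB'
    -- bound for fixed shift
    have key : ∀ g : (Fin (K + 1) → Fin n → ZMod p), ∑ o : (Fin n → ZMod p) → Ω, Real.exp (σ * disc n (q * p)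
        (fun ci : (Fin n → ZMod p) × I => fun s => cmb p (x (o ci.1) ci.2 s) (l g ci.1 s)) b e)
        ≤ Real.exp (σ * sys K n q p (l g) b e)
          * ((Fintype.card Ω : ℝ) ^ (Fintype.card (Fin n → ZMod p)) * Real.exp (min (A' * w) (B' * w ^ 2))) := by
      intro g
      set bb : (Fin n → ZMod p) → Fin (K + 1) → List ℕ := fun c s => fibL p (b s) (l g c s) with hbb
      set ee : (Fin n → ZMod p) → Fin (K + 1) → Bool := fun c s => fibE p (b s) (e s) (l g c s) with hee
      have h1 : ∀ o : (Fin n → ZMod p) → Ω, Real.exp (σ * disc n (q * p)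
          (fun ci : (Fin n → ZMod p) × I => fun s => cmb p (x (o ci.1) ci.2 s) (l g ci.1 s)) b e)
          = Real.exp (σ * sys K n q p (l g) b e)
            * ∏ c, Real.exp (σ * disc n q (x (o c)) (bb c) (ee c)) := by
        intro o
        rw [disc_step (l g) (fun c => x (o c)) b e, mul_add, Real.exp_add, mul_sum,
          Real.exp_sum, mul_comm]
      simp only [h1]
      rw [← mul_sum]
      apply mul_le_mul_of_nonneg_left _ (Real.exp_pos _).le
      have h2 : ∑ o : (Fin n → ZMod p) → Ω, ∏ c, Real.exp (σ * disc n q (x (o c)) (bb c) (ee c))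
          = ∏ c, ∑ ω, Real.exp (σ * disc n q (x ω) (bb c) (ee c)) := by
        rw [Finset.prod_univ_sum]
        rfl
      rw [h2]
      calc ∏ c, ∑ ω, Real.exp (σ * disc n q (x ω) (bb c) (ee c))
          ≤ ∏ c : (Fin n → ZMod p), (Fintype.card Ω : ℝ) * Real.exp (min (A * W K (exc n (bb c)))
              (B * (W K (exc n (bb c)) : ℝ) ^ 2)) := by
            apply prod_le_prod
            · intro c _; exact sum_nonneg fun _ _ => (Real.exp_pos _).le
            · intro c _
              apply hm (bb c) (ee c) _ _ σ hσ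
              · intro s; exact (fibL_length_le p (b s) (l g c s)).trans (hlen s)
              · intro s d hd'
                exact fibL_lt q p (b s) (l g c s) (hdig s) d hd'
        _ = (Fintype.card Ω : ℝ) ^ (Fintype.card (Fin n → ZMod p)) * Real.exp (∑ c, min (A * W K (exc n (bb c)))
              (B * (W K (exc n (bb c)) : ℝ) ^ 2)) := by
            rw [prod_mul_distrib, prod_const, Real.exp_sum, card_univ]
        _ ≤ _ := by
            apply mul_le_mul_of_nonneg_left _ (by positivity)
            apply Real.exp_le_exp.mpr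
            have := sum_F_le K (fun c => exc n (bb c)) (exc n b) ℓ ((p : ℝ) ^ K) del A B
              (by positivity) hdel hA hB (fun c => exc_fib_le n b (l g c))
              (by exact_mod_cast tiles_W hK (hl g) b)
              (by exact_mod_cast tiles_V hK (hl g) b) hℓ (V_le_W K)
            exact this
    -- the mean over the shifts
    have hsys : ∑ g : (Fin (K + 1) → Fin n → ZMod p), Real.exp (σ * sys K n q p (l g) b e)
        ≤ Fintype.card (Fin (K + 1) → Fin n → ZMod p) * Real.exp (min (lam * ε * w) ((lam * ε * w) ^ 2)) := by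
      apply exp_mean_le
      · intro g
        rw [abs_mul, habs]
        have := sys_bound hK hq (hl g) b e hlen hdig
        calc lam * |sys K n q p (l g) b e| ≤ lam * (ε * w) := by
              apply mul_le_mul_of_nonneg_left _ hlam
              exact this
          _ = lam * ε * w := by ring
      · rw [← mul_sum]
        have := sys_mean hq R (by simp [ZMod.card]) b e hlen
        rw [show ∑ g : (Fin (K + 1) → Fin n → ZMod p), sys K n q p (l g) b e = 0 from this, mul_zero]
    have hcard : (Fintype.card ((Fin (K + 1) → Fin n → ZMod p) × ((Fin n → ZMod p) → Ω)) : ℝ)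
        = Fintype.card (Fin (K + 1) → Fin n → ZMod p) * (Fintype.card Ω : ℝ) ^ (Fintype.card (Fin n → ZMod p)) := by
      rw [Fintype.card_prod, Fintype.card_fun (α := Fin n → ZMod p) (β := Ω), Nat.cast_mul, Nat.cast_pow]
    rw [Fintype.sum_prod_type, hcard]
    calc ∑ g : (Fin (K + 1) → Fin n → ZMod p), ∑ o : (Fin n → ZMod p) → Ω, Real.exp (σ * disc n (q * p)
          (fun ci : (Fin n → ZMod p) × I => fun s => cmb p (x (o ci.1) ci.2 s) (l g ci.1 s)) b e)
        ≤ ∑ g : (Fin (K + 1) → Fin n → ZMod p), Real.exp (σ * sys K n q p (l g) b e)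
          * ((Fintype.card Ω : ℝ) ^ (Fintype.card (Fin n → ZMod p)) * Real.exp (min (A' * w) (B' * w ^ 2))) :=
          sum_le_sum fun g _ => key g
      _ = (∑ g : (Fin (K + 1) → Fin n → ZMod p), Real.exp (σ * sys K n q p (l g) b e))
          * ((Fintype.card Ω : ℝ) ^ (Fintype.card (Fin n → ZMod p)) * Real.exp (min (A' * w) (B' * w ^ 2))) := by
          rw [sum_mul]
      _ ≤ (Fintype.card (Fin (K + 1) → Fin n → ZMod p) * Real.exp (min (lam * ε * w) ((lam * ε * w) ^ 2)))
          * ((Fintype.card Ω : ℝ) ^ (Fintype.card (Fin n → ZMod p)) * Real.exp (min (A' * w) (B' * w ^ 2))) := by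
          apply mul_le_mul_of_nonneg_right hsys (by positivity)
      _ = Fintype.card (Fin (K + 1) → Fin n → ZMod p) * (Fintype.card Ω : ℝ) ^ (Fintype.card (Fin n → ZMod p))
          * Real.exp (min (lam * ε * w) ((lam * ε * w) ^ 2) + min (A' * w) (B' * w ^ 2)) := by
          rw [Real.exp_add]; ring
      _ ≤ _ := by
          apply mul_le_mul_of_nonneg_left _ (by positivity)
          apply Real.exp_le_exp.mpr
          apply le_min
          · calc _ ≤ lam * ε * w + A' * w := add_le_add (min_le_left _ _) (min_le_left _ _)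
              _ = _ := by ring
          · calc _ ≤ (lam * ε * w) ^ 2 + B' * w ^ 2 :=
                  add_le_add (min_le_right _ _) (min_le_right _ _)
              _ = _ := by ring

end DiscTower
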