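import Pool.Agent.Work.DiscTower.Fib

/-! T13: integer thresholds are corners. -/

namespace DiscTower
open Finset

/-- the number with digit string `x` (first digit most significant), `n` digits, base `q` -/
def num (q : ℕ) : ℕ → (ℕ → ℕ) → ℕ
  | 0, _ => 0
  | n + 1, x => x 0 * q ^ n + num q n (fun t => x (t + 1))

theorem num_lt (q n : ℕ) (x : ℕ → ℕ) (hx : ∀ t, x t < q) : num q n x < q ^ n := by
  induction n generalizing x with
  | zero => simp [num]
  | succ n ih =>
    have h1 := ih (fun t => x (t + 1)) (fun t => hx (t + 1))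
    have h2 : (x 0 + 1) * q ^ n ≤ q * q ^ n := Nat.mul_le_mul_right _ (hx 0)
    simp only [num]
    rw [pow_succ]
    nlinarith

theorem num_succ_lt_iff (q n : ℕ) (x : ℕ → ℕ) (d a : ℕ) (hx : ∀ t, x t < q) (ha : a < q ^ n) :
    num q (n + 1) x < d * q ^ n + a ↔
      x 0 < d ∨ (x 0 = d ∧ num q n (fun t => x (t + 1)) < a) := by
  have h1 := num_lt q n (fun t => x (t + 1)) (fun t => hx (t + 1))
  simp only [num]
  constructor
  · intro h
    rcases lt_trichotomy (x 0) d with h2 | h2 | h2
    · exact Or.inl h2
    · refine Or.inr ⟨h2, ?_⟩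
      rw [h2] at h
      omega
    · exfalso
      have h3 : (d + 1) * q ^ n ≤ x 0 * q ^ n := Nat.mul_le_mul_right _ h2
      nlinarith
  · rintro (h | ⟨h, h2⟩)
    · have h3 : (x 0 + 1) * q ^ n ≤ d * q ^ n := Nat.mul_le_mul_right _ h
      nlinarith
    · rw [h]
      omega

theorem num_eq_iff (q n : ℕ) (x z : ℕ → ℕ) (hx : ∀ t, x t < q) (hz : ∀ t, z t < q) :
    num q n x = num q n z ↔ ∀ t < n, x t = z t := by
  induction n generalizing x z with
  | zero => simp [num]
  | succ n ih =>
    have h1 := num_lt q n (fun t => x (t + 1)) (fun t => hx (t + 1))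
    have h2 := num_lt q n (fun t => z (t + 1)) (fun t => hz (t + 1))
    have ih' := ih (fun t => x (t + 1)) (fun t => z (t + 1)) (fun t => hx (t + 1))
      (fun t => hz (t + 1))
    constructor
    · intro h
      simp only [num] at h
      have h0 : x 0 = z 0 := by
        rcases lt_trichotomy (x 0) (z 0) with h3 | h3 | h3
        · exfalso
          have h4 : (x 0 + 1) * q ^ n ≤ z 0 * q ^ n := Nat.mul_le_mul_right _ h3
          nlinarith
        · exact h3
        · exfalso
          have h4 : (z 0 + 1) * q ^ n ≤ x 0 * q ^ n := Nat.mul_le_mul_right _ h3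
          nlinarith
      rw [h0] at h
      have h5 := ih'.1 (by omega)
      intro t ht
      rcases t with _ | t
      · exact h0
      · exact h5 t (by omega)
    · intro h
      simp only [num]
      rw [h 0 (by omega), ih'.2 (fun t ht => h (t + 1) (by omega))]

theorem exists_digits (q n y : ℕ) (hq : 1 ≤ q) (hy : y < q ^ n) :
    ∃ z : ℕ → ℕ, (∀ t, z t < q) ∧ num q n z = y := by
  induction n generalizing y with
  | zero =>
    refine ⟨fun _ => 0, fun _ => hq, ?_⟩
    simp only [pow_zero, Nat.lt_one_iff] at hy
    simp [num, hy]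
  | succ n ih =>
    have hpos : 0 < q ^ n := Nat.pow_pos hq
    obtain ⟨z, hz, hz2⟩ := ih (y % q ^ n) (Nat.mod_lt _ hpos)
    refine ⟨fun t => Nat.casesOn t (y / q ^ n) (fun s => z s), ?_, ?_⟩
    · intro t
      rcases t with _ | t
      · show y / q ^ n < q
        rw [Nat.div_lt_iff_lt_mul hpos]
        rw [pow_succ] at hy
        linarith [mul_comm q (q ^ n)]
      · exact hz t
    · show y / q ^ n * q ^ n + num q n (fun t => z t) = y
      rw [hz2]
      exact Nat.div_add_mod' y (q ^ n)

theorem corner_exists (q n a : ℕ) (hq : 1 ≤ q) (ha : a ≤ q ^ n) :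
    ∃ (b : List ℕ) (e : Bool), b.length ≤ n ∧ (∀ d ∈ b, d < q) ∧
      vol q b e = (a : ℝ) / (q : ℝ) ^ n ∧
      ∀ x : ℕ → ℕ, (∀ t, x t < q) → val b e x = if num q n x < a then 1 else 0 := by
  have hq0 : (q : ℝ) ≠ 0 := by positivity
  induction n generalizing a with
  | zero =>
    rcases Nat.eq_zero_or_pos a with h | h
    · refine ⟨[], false, by simp, by simp, ?_, ?_⟩
      · simp [vol, h]
      · intro x _
        simp [val, h]
    · have h1 : a = 1 := by
        rw [pow_zero] at ha
        omega
      refine ⟨[], true, by simp, by simp, ?_, ?_⟩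
      · simp [vol, h1]
      · intro x _
        simp [val, h1, num]
  | succ n ih =>
    have hpos : 0 < q ^ n := Nat.pow_pos hq
    rcases Nat.lt_or_ge a (q ^ (n + 1)) with h | h
    · obtain ⟨b, e, hb, hd, hv, hx⟩ := ih (a % q ^ n) (Nat.mod_lt _ hpos).le
      have hdq : a / q ^ n < q := by
        rw [Nat.div_lt_iff_lt_mul hpos]
        rw [pow_succ] at h
        linarith [mul_comm q (q ^ n)]
      have hadd : a / q ^ n * q ^ n + a % q ^ n = a := Nat.div_add_mod' a (q ^ n)
      refine ⟨(a / q ^ n) :: b, e, by simpa using hb, ?_, ?_, ?_⟩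
      · intro d hdm
        rcases List.mem_cons.1 hdm with h1 | h1
        · rw [h1]
          exact hdq
        · exact hd d h1
      · have hqn : ((q : ℝ) ^ n) ≠ 0 := pow_ne_zero _ hq0
        have hcast : (a : ℝ) = ((a / q ^ n : ℕ) : ℝ) * (q : ℝ) ^ n + ((a % q ^ n : ℕ) : ℝ) := by
          have h2 := congrArg (fun m : ℕ => (m : ℝ)) hadd
          simp only [Nat.cast_add, Nat.cast_mul, Nat.cast_pow] at h2
          exact h2.symm
        show (((a / q ^ n : ℕ) : ℝ) + vol q b e) / q = (a : ℝ) / (q : ℝ) ^ (n + 1)
        rw [hv, hcast, pow_succ]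
        field_simp
      · intro x hxq
        have h3 := num_succ_lt_iff q n x (a / q ^ n) (a % q ^ n) hxq (Nat.mod_lt _ hpos)
        rw [hadd] at h3
        have h4 := hx (fun t => x (t + 1)) (fun t => hxq (t + 1))
        show (if x 0 < a / q ^ n then (1 : ℝ) else if x 0 = a / q ^ n then
          val b e (fun t => x (t + 1)) else 0) = _
        rw [h4]
        by_cases h5 : x 0 < a / q ^ n
        · rw [if_pos h5, if_pos (h3.2 (Or.inl h5))]
        · rw [if_neg h5]
          by_cases h6 : x 0 = a / q ^ n
          · rw [if_pos h6]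
            by_cases h7 : num q n (fun t => x (t + 1)) < a % q ^ n
            · rw [if_pos h7, if_pos (h3.2 (Or.inr ⟨h6, h7⟩))]
            · rw [if_neg h7, if_neg]
              intro h8
              rcases h3.1 h8 with h9 | h9
              · exact h5 h9
              · exact h7 h9.2
          · rw [if_neg h6, if_neg]
            intro h8
            rcases h3.1 h8 with h9 | h9
            · exact h5 h9
            · exact h6 h9.1
    · have h1 : a = q ^ (n + 1) := le_antisymm ha h
      refine ⟨[], true, by simp, by simp, ?_, ?_⟩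
      · rw [h1]
        simp only [vol, if_true, Nat.cast_pow]
        rw [div_self (pow_ne_zero _ hq0)]
      · intro x hxq
        have h2 := num_lt q (n + 1) x hxq
        rw [h1, if_pos h2]
        simp [val]

end DiscTower
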