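import Pool.Agent.Work.DiscTower.Fib

/-! T3: size and support of `tl`, `dl`. -/

namespace DiscTower
open Finset

theorem tl_eq_zero (q p : ℕ) (T : ℕ) (b : List ℕ) (e : Bool) (l : ℕ → ZMod p) (hT : 1 ≤ T)
    (h : b.length < T) : tl q p T b e l = 0 := by
  induction T generalizing b l with
  | zero => omega
  | succ T ih =>
    cases T with
    | zero =>
      have hb : b = [] := List.eq_nil_of_length_eq_zero (by omega)
      subst hb
      simp [tl, mu, vol, fibL, fibE]
    | succ T =>
      cases b with
      | nil => simp [tl]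
      | cons b r =>
        simp only [tl]
        split_ifs with h0
        · rw [ih r _ (by omega) (by simpa using h), zero_div]
        · rfl

/-- both volumes lie in the same interval of length `1 / q` -/
theorem mu_mem (q p : ℕ) [NeZero p] (hq : 1 ≤ q) (b : ℕ) (r : List ℕ) (e : Bool)
    (l : ℕ → ZMod p) (hb : ∀ d ∈ b :: r, d < q * p) :
    (((b / p : ℕ) : ℝ)) / q ≤ mu q p (b :: r) e l ∧
      mu q p (b :: r) e l ≤ (((b / p : ℕ) : ℝ) + 1) / q := by
  have hq0 : (0 : ℝ) < q := by exact_mod_cast hq
  unfold mu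
  by_cases h : l 0 = (b : ZMod p)
  · simp only [fibL, fibE, h, if_true, vol]
    have h0 := vol_nonneg q (fibL p r (fun t => l (t + 1))) (fibE p r e (fun t => l (t + 1)))
    have h1 := vol_le_one q hq (fibL p r (fun t => l (t + 1))) (fibE p r e (fun t => l (t + 1)))
      (fibL_lt q p r _ (fun d hd => hb d (List.mem_cons_of_mem _ hd)))
    constructor <;> (rw [div_le_div_iff_of_pos_right hq0]; linarith)
  · simp only [fibL, fibE, h, if_false, vol]
    constructor
    · rw [div_le_div_iff_of_pos_right hq0]
      split_ifs <;> simp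
    · rw [div_le_div_iff_of_pos_right hq0]
      split_ifs <;> simp

theorem vol_mem (q p : ℕ) [NeZero p] (hq : 1 ≤ q) (b : ℕ) (v : ℝ) (h0 : 0 ≤ v) (h1 : v ≤ 1) :
    (((b / p : ℕ) : ℝ)) / q ≤ (b + v) / ((q * p : ℕ) : ℝ) ∧
      (b + v) / ((q * p : ℕ) : ℝ) ≤ (((b / p : ℕ) : ℝ) + 1) / q := by
  have hq0 : (0 : ℝ) < q := by exact_mod_cast hq
  have hp : 0 < p := Nat.pos_of_ne_zero (NeZero.ne p)
  have hp0 : (0 : ℝ) < p := by exact_mod_cast hp
  have hdiv : (b : ℝ) = (p : ℝ) * ((b / p : ℕ) : ℝ) + ((b % p : ℕ) : ℝ) := by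
    exact_mod_cast (Nat.div_add_mod b p).symm
  have hmod : ((b % p : ℕ) : ℝ) + 1 ≤ p := by
    exact_mod_cast Nat.mod_lt b hp
  have hmod0 : (0 : ℝ) ≤ ((b % p : ℕ) : ℝ) := Nat.cast_nonneg _
  push_cast
  constructor
  · rw [div_le_div_iff₀ hq0 (mul_pos hq0 hp0)]
    rw [hdiv]
    have : 0 ≤ (((b % p : ℕ) : ℝ) + v) * q := mul_nonneg (by linarith) hq0.le
    nlinarith
  · rw [div_le_div_iff₀ (mul_pos hq0 hp0) hq0]
    rw [hdiv]
    have : 0 ≤ ((p : ℝ) - ((b % p : ℕ) : ℝ) - v) * q := mul_nonneg (by linarith) hq0.le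
    nlinarith

theorem abs_sub_le_of_mem {x y a q : ℝ} (hx : a / q ≤ x ∧ x ≤ (a + 1) / q)
    (hy : a / q ≤ y ∧ y ≤ (a + 1) / q) : |x - y| ≤ 1 / q := by
  have h : (a + 1) / q = a / q + 1 / q := add_div _ _ _
  rw [h] at hx hy
  rw [abs_le]
  constructor <;> linarith [hx.1, hx.2, hy.1, hy.2]

theorem abs_tl_le (q p : ℕ) [NeZero p] (hq : 1 ≤ q) (T : ℕ) (b : List ℕ) (e : Bool)
    (l : ℕ → ZMod p) (hb : ∀ d ∈ b, d < q * p) : |tl q p T b e l| ≤ (1 / (q : ℝ)) ^ T := by
  have hq0 : (0 : ℝ) < q := by exact_mod_cast hq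
  have hp : 0 < p := Nat.pos_of_ne_zero (NeZero.ne p)
  induction T generalizing b l with
  | zero =>
    simp only [tl, pow_zero, mu]
    rw [abs_of_nonneg (vol_nonneg _ _ _)]
    exact vol_le_one q hq _ _ (fibL_lt q p b l hb)
  | succ T ih =>
    cases T with
    | zero =>
      cases b with
      | nil =>
        rw [tl_eq_zero q p 1 [] e l le_rfl (by simp)]
        simp
      | cons b r =>
        simp only [tl, zero_add, pow_one]
        refine abs_sub_le_of_mem (mu_mem q p hq b r e l hb) ?_
        simp only [vol]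
        exact vol_mem q p hq b _ (vol_nonneg _ _ _)
          (vol_le_one (q * p) (Nat.mul_pos hq hp) _ _
            (fun d hd => hb d (List.mem_cons_of_mem _ hd)))
    | succ T =>
      cases b with
      | nil =>
        simp only [tl, abs_zero]
        positivity
      | cons b r =>
        simp only [tl]
        split_ifs with h0
        · rw [abs_div, abs_of_pos hq0, pow_succ, mul_one_div]
          exact div_le_div_of_nonneg_right
            (ih r _ (fun d hd => hb d (List.mem_cons_of_mem _ hd))) hq0.le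
        · rw [abs_zero]; positivity

theorem tl_prefix (q p : ℕ) (T : ℕ) (b : List ℕ) (e : Bool) (l : ℕ → ZMod p)
    (h : tl q p T b e l ≠ 0) : ∀ t, t + 1 < T → l t = ((b.getD t 0 : ℕ) : ZMod p) := by
  induction T generalizing b l with
  | zero => intro t ht; omega
  | succ T ih =>
    cases T with
    | zero => intro t ht; omega
    | succ T =>
      cases b with
      | nil => simp [tl] at h
      | cons b r =>
        simp only [tl] at h
        split_ifs at h with h0
        · intro t ht
          cases t with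
          | zero => simpa using h0
          | succ t =>
            have := ih r (fun t => l (t + 1)) (fun h' => h (by rw [h', zero_div])) t (by omega)
            simpa using this
        · exact absurd rfl h

theorem dl_zero (q p : ℕ) (b : List ℕ) (e : Bool) (l : ℕ → ZMod p) :
    dl q p 0 b e l = vol (q * p) b e := by
  simp [dl, tl]

theorem dl_succ_succ (q p : ℕ) (T : ℕ) (b : ℕ) (r : List ℕ) (e : Bool) (l : ℕ → ZMod p) :
    dl q p (T + 2) (b :: r) e l =
      if l 0 = (b : ZMod p) then dl q p (T + 1) r e (fun t => l (t + 1)) / q else 0 := by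
  simp only [dl, tl]
  split_ifs
  · rw [sub_div]
  · simp

theorem abs_dl_le (q p : ℕ) [NeZero p] (hq : 1 ≤ q) (T : ℕ) (b : List ℕ) (e : Bool)
    (l : ℕ → ZMod p) (hb : ∀ d ∈ b, d < q * p) : |dl q p T b e l| ≤ (1 / (q : ℝ)) ^ T := by
  have hq0 : (0 : ℝ) < q := by exact_mod_cast hq
  have hp : 0 < p := Nat.pos_of_ne_zero (NeZero.ne p)
  induction T generalizing b l with
  | zero =>
    rw [dl_zero, pow_zero, abs_of_nonneg (vol_nonneg _ _ _)]
    exact vol_le_one _ (Nat.mul_pos hq hp) _ _ hb
  | succ T ih =>
    cases T with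
    | zero =>
      cases b with
      | nil =>
        unfold dl
        rw [tl_eq_zero q p _ [] e l (by norm_num) (by simp),
          tl_eq_zero q p _ [] e l (by norm_num) (by simp)]
        simp
      | cons b r =>
        have hr : ∀ d ∈ r, d < q * p := fun d hd => hb d (List.mem_cons_of_mem _ hd)
        have hv0 := vol_nonneg (q * p) r e
        have hv1 := vol_le_one (q * p) (Nat.mul_pos hq hp) r e hr
        by_cases h0 : l 0 = (b : ZMod p)
        · have hd : dl q p (0 + 1) (b :: r) e l =
              (((b / p : ℕ) : ℝ) + vol (q * p) r e) / q - vol (q * p) (b :: r) e := by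
            simp only [dl, tl, mu, fibL, fibE, h0, if_true, vol]
            ring
          rw [hd, zero_add, pow_one]
          refine abs_sub_le_of_mem (a := ((b / p : ℕ) : ℝ)) ?_ ?_
          · constructor <;> (rw [div_le_div_iff_of_pos_right hq0]; linarith)
          · simp only [vol]
            exact vol_mem q p hq b _ hv0 hv1
        · have hd : dl q p (0 + 1) (b :: r) e l = tl q p (0 + 1) (b :: r) e l := by
            simp only [dl, tl, h0, if_false, sub_zero]
          rw [hd]
          exact abs_tl_le q p hq _ _ _ _ hb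
    | succ T =>
      cases b with
      | nil =>
        unfold dl
        rw [tl_eq_zero q p _ [] e l (by omega) (by simp),
          tl_eq_zero q p _ [] e l (by omega) (by simp)]
        simp only [sub_zero, abs_zero]
        positivity
      | cons b r =>
        rw [dl_succ_succ]
        split_ifs with h0
        · rw [abs_div, abs_of_pos hq0, pow_succ, mul_one_div]
          exact div_le_div_of_nonneg_right
            (ih r _ (fun d hd => hb d (List.mem_cons_of_mem _ hd))) hq0.le
        · rw [abs_zero]; positivity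

theorem dl_prefix (q p : ℕ) (T : ℕ) (b : List ℕ) (e : Bool) (l : ℕ → ZMod p)
    (h : dl q p T b e l ≠ 0) : ∀ t, t + 1 < T → l t = ((b.getD t 0 : ℕ) : ZMod p) := by
  intro t ht
  by_cases h1 : tl q p T b e l = 0
  · have h2 : tl q p (T + 1) b e l ≠ 0 := by
      intro h2
      exact h (by unfold dl; rw [h1, h2, sub_zero])
    exact tl_prefix q p (T + 1) b e l h2 t (by omega)
  · exact tl_prefix q p T b e l h1 t ht

theorem dl_length (q p : ℕ) (T : ℕ) (b : List ℕ) (e : Bool) (l : ℕ → ZMod p)
    (h : dl q p T b e l ≠ 0) : T ≤ b.length := by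
  by_contra hlt
  push Not at hlt
  apply h
  unfold dl
  rw [tl_eq_zero q p T b e l (by omega) hlt, tl_eq_zero q p (T + 1) b e l (by omega) (by omega),
    sub_zero]

end DiscTower
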